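import Pool.Agent.Helper61.EC.Chain

/-! Exact entropy calculus: Lemma W for all (g,k) by freezing coordinates: the theorem. -/

namespace Pool.Agent.Helper61.EC

open Finset Pool.Agent.Helper31.EC

set_option linter.unusedSectionVars false

noncomputable section

variable {S : Sp}

namespace Blk

variable {g k : ℕ} {ιp ιq ιf : Type} [Fintype ιp] [Fintype ιq] [Fintype ιf] (β : Blk S g k ιp ιq ιf)

/-- the other side if there is no `A` part: the `C` part is a label -/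
theorem core_zero {β : Blk S g 1 ιp ιq ιf} (ok : β.Ok) (hA : β.A = fun _ => 0) (i : Fin g) :
    QS.dg (β.C i) 1 ≤ β.F := by
  obtain ⟨D, s1, s2, com, ci⟩ := exists_copy (Pj.id S) (β.kf i)
  simp only [Pj.id_qs, Pj.id_map] at com ci
  obtain ⟨hu, E, π1, π2, e1, -, -, -, hI⟩ := core ok i 0 s1 s2 com (ci _ _)
  have h1 : π1.qs (s1.qs (β.x i) - s2.qs (β.x i)) * (π2.qs (s1.qs (β.C i)) - π1.qs (s1.qs (β.C i))) = 0 := by
    rw [e1, hA]
    simp
  have h2 : IsUnit (π1.qs (s1.qs (β.x i) - s2.qs (β.x i))) := hu.map π1.qs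
  have h3 : π2.qs (s1.qs (β.C i)) = π1.qs (s1.qs (β.C i)) := by
    rw [← sub_eq_zero]
    obtain ⟨w, hw⟩ := h2.exists_left_inv
    calc π2.qs (s1.qs (β.C i)) - π1.qs (s1.qs (β.C i)) =
          w * (π1.qs (s1.qs (β.x i) - s2.qs (β.x i)) * (π2.qs (s1.qs (β.C i)) - π1.qs (s1.qs (β.C i)))) := by
            rw [← mul_assoc, hw, one_mul]
      _ = 0 := by rw [h1, mul_zero]
  have h4 : QS.vd (β.yn 0) 1 = ⊥ := by
    apply le_antisymm _ bot_le
    rw [QS.vd_le]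
    rintro ⟨l, hl⟩
    exact absurd (Subsingleton.elim l 0) hl
  rw [h4, bot_sup_eq] at hI
  rw [← s1.map_le, ← π1.map_le, ← s1.qs_dg, ← π1.qs_dg]
  refine le_of_markov (A := π1.map (s1.map β.P)) (B := π2.map (s1.map β.P)) ?_ ?_ hI
  · rw [π1.qs_dg, s1.qs_dg]
    exact (π1.map_mono (s1.map_mono (β.C_le i))).trans le_sup_left
  · rw [← h3, π2.qs_dg, s1.qs_dg]
    exact (π2.map_mono (s1.map_mono (β.C_le i))).trans le_sup_left

/-- THEOREM W(g,k). -/
theorem W {β : Blk S g k ιp ιq ιf} (ok : β.Ok) (hg : 0 < g) (hk : 0 < k) :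
    ∃ (W : Sp) (p q : Pj W S) (Φ : Fin k → Fin g → QS W) (c : Fin k → QS W) (G : Fin g → QS W),
      (∀ t, p.qs (β.ef t) = q.qs (β.ef t)) ∧ I (p.map β.Q) (q.map β.Q) (q.map β.St) = 0 ∧
      (∀ j l, QS.dg (Φ j l) 1 ≤ q.map β.F) ∧ (∀ j, QS.dg (c j) 1 ≤ q.map β.F) ∧ (∀ i, QS.dg (G i) 1 ≤ q.map β.F) ∧
      (∀ j, p.qs (β.A j) = ∑ l, Φ j l * p.qs (β.x l) + c j) ∧
      (∀ j, q.qs (β.A j) = ∑ l, Φ j l * q.qs (β.x l) + c j) ∧
      ∀ i, q.qs (β.C i) = ∑ j, Φ j i * q.qs (β.y j) + G i := by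
  obtain ⟨W, p, q, ch⟩ := ch_all ok g le_rfl
  obtain ⟨Φ, hΦ1, hΦ2⟩ := ch.phi
  have hF : p.map β.F = q.map β.F := vd_com (fun t => ch.com (Sum.inr (Sum.inr t))) 1
  have hSt : p.map β.St = q.map β.St := by
    rw [← β.ef_eq]
    exact vd_com ch.com 1
  have hP : p.map β.P = q.map β.P := vd_com (fun t => ch.com (Sum.inr (Sum.inl t))) 1
  have hind : I (p.map β.Q) (q.map β.Q) (q.map β.St) = 0 := by
    have h1 := ch.ind hg
    have h2 : QS.sd β.x (hi g g) = ⊥ := by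
      have e : hi g g = ∅ := by
        ext l
        rw [mem_hi]
        have := l.2
        simp
      rw [e]
      simp [QS.sd]
    rwa [h2, sup_bot_eq] at h1
  set c : Fin k → QS W := fun j => q.qs (β.A j) - ∑ l, Φ j l * q.qs (β.x l) with hc
  have hc' : ∀ j, c j = p.qs (β.A j) - ∑ l, Φ j l * p.qs (β.x l) := by
    intro j
    have h1 := hΦ2 j
    simp only [mul_sub] at h1
    rw [Finset.sum_sub_distrib] at h1
    rw [hc]
    linear_combination -h1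
  have lc1 : ∀ j, QS.dg (c j) 1 ≤ q.map β.Q ⊔ q.map β.F := by
    intro j
    refine (QS.Kn W 1 le_rfl (q.map β.Q ⊔ q.map β.F)).sub_mem ?_ ((QS.Kn W 1 le_rfl _).sum_mem fun l _ =>
      (QS.Kn W 1 le_rfl _).mul_mem ?_ ?_)
    · rw [QS.mem_Kn, q.qs_dg]; exact (q.map_mono (β.A_le j)).trans le_sup_left
    · rw [QS.mem_Kn]; exact (hΦ1 j l).trans le_sup_right
    · rw [QS.mem_Kn, q.qs_dg]; exact (q.map_mono (β.x_le l)).trans le_sup_left
  have lc2 : ∀ j, QS.dg (c j) 1 ≤ p.map β.Q ⊔ q.map β.F := by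
    intro j
    rw [hc' j]
    refine (QS.Kn W 1 le_rfl (p.map β.Q ⊔ q.map β.F)).sub_mem ?_ ((QS.Kn W 1 le_rfl _).sum_mem fun l _ =>
      (QS.Kn W 1 le_rfl _).mul_mem ?_ ?_)
    · rw [QS.mem_Kn, p.qs_dg]; exact (p.map_mono (β.A_le j)).trans le_sup_left
    · rw [QS.mem_Kn]; exact (hΦ1 j l).trans le_sup_right
    · rw [QS.mem_Kn, p.qs_dg]; exact (p.map_mono (β.x_le l)).trans le_sup_left
  have hQQ : I (p.map β.Q) (q.map β.Q) (q.map β.F) = 0 := by
    have h1 : I (p.map β.Q) (q.map β.St) (q.map β.F) = 0 := by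
      rw [← hSt, ← hF, p.I_map]
      exact St_indep ok
    have h2 : q.map β.St ⊔ q.map β.F = q.map β.St := sup_eq_left.mpr (q.map_mono β.F_le_St)
    have h3 := I_contract h1 (by rw [h2]; exact hind)
    exact I_zero_mono h3 le_sup_left (le_sup_right.trans le_sup_left)
  have lc : ∀ j, QS.dg (c j) 1 ≤ q.map β.F := fun j => le_of_markov (lc2 j) (lc1 j) hQQ
  -- the other side
  set j0 : Fin k := ⟨0, hk⟩ with hj0
  set G : Fin g → QS W := fun i => q.qs (β.C i) - ∑ j, Φ j i * q.qs (β.y j) with hG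
  have gC : ∀ i, QS.dg (G i) 1 ≤ q.map β.P ⊔ q.map β.F := by
    intro i
    refine (QS.Kn W 1 le_rfl (q.map β.P ⊔ q.map β.F)).sub_mem ?_ ((QS.Kn W 1 le_rfl _).sum_mem fun l _ =>
      (QS.Kn W 1 le_rfl _).mul_mem ?_ ?_)
    · rw [QS.mem_Kn, q.qs_dg]; exact (q.map_mono (β.C_le i)).trans le_sup_left
    · rw [QS.mem_Kn]; exact (hΦ1 l i).trans le_sup_right
    · rw [QS.mem_Kn, q.qs_dg]; exact (q.map_mono (β.y_le l)).trans le_sup_left
  have ga : QS.dg (q.qs β.a - ∑ j, c j * q.qs (β.y j)) 1 ≤ q.map β.P ⊔ q.map β.F := by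
    refine (QS.Kn W 1 le_rfl (q.map β.P ⊔ q.map β.F)).sub_mem ?_ ((QS.Kn W 1 le_rfl _).sum_mem fun l _ =>
      (QS.Kn W 1 le_rfl _).mul_mem ?_ ?_)
    · rw [QS.mem_Kn, q.qs_dg]; exact (q.map_mono β.a_le).trans le_sup_left
    · rw [QS.mem_Kn]; exact (lc l).trans le_sup_right
    · rw [QS.mem_Kn, q.qs_dg]; exact (q.map_mono (β.y_le l)).trans le_sup_left
  have hfv : QS.vd (Sum.elim (fun t : ιf => q.qs (β.Fv t)) (Sum.elim (fun t : Fin k × Fin g => Φ t.1 t.2) c)) 1 =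
      q.map β.F := by
    rw [vd_sum, vd_sum, q.qs_vd]
    apply le_antisymm
    · refine sup_le le_rfl (sup_le ?_ ?_)
      · rw [QS.vd_le]
        exact fun t => hΦ1 t.1 t.2
      · rw [QS.vd_le]
        exact lc
    · exact le_sup_left
  obtain ⟨γ, γz, γx, γC, γA, γy, γa, γb, γF⟩ : ∃ γ : Blk W g 1 (Fin 0) (Fin 0) (ιf ⊕ ((Fin k × Fin g) ⊕ Fin k)),
      γ.z = q.qs β.z ∧ (γ.x = fun i => q.qs (β.x i)) ∧ γ.C = G ∧ (γ.A = fun _ => 0) ∧
      (γ.y = fun _ => q.qs (β.y j0)) ∧ γ.a = q.qs β.a - ∑ j, c j * q.qs (β.y j) ∧ γ.b = q.qs β.b ∧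
      γ.F = q.map β.F := ⟨
    { z := q.qs β.z
      x := fun i => q.qs (β.x i)
      C := G
      A := fun _ => 0
      y := fun _ => q.qs (β.y j0)
      a := q.qs β.a - ∑ j, c j * q.qs (β.y j)
      b := q.qs β.b
      Pv := fun t => t.elim0
      Qv := fun t => t.elim0
      Fv := Sum.elim (fun t => q.qs (β.Fv t)) (Sum.elim (fun t => Φ t.1 t.2) c) }, rfl, rfl, rfl, rfl, rfl, rfl, rfl, hfv⟩
  have gP : γ.P ≤ q.map β.P ⊔ q.map β.F := by
    unfold Blk.P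
    rw [QS.vd_le]
    rintro (t | t | t | t)
    · show QS.dg (γ.C t) 1 ≤ _
      rw [γC]; exact gC t
    · show QS.dg (γ.y t) 1 ≤ _
      rw [γy, q.qs_dg]; exact (q.map_mono (β.y_le j0)).trans le_sup_left
    · show QS.dg γ.a 1 ≤ _
      rw [γa]; exact ga
    · exact t.elim0
  have gQ : γ.Q ≤ q.map β.Q ⊔ q.map β.F := by
    unfold Blk.Q
    rw [QS.vd_le]
    rintro (t | t | t | t)
    · show QS.dg (γ.x t) 1 ≤ _
      rw [γx, q.qs_dg]; exact (q.map_mono (β.x_le t)).trans le_sup_left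
    · show QS.dg (γ.A t) 1 ≤ _
      rw [γA]
      exact (QS.Kn W 1 le_rfl (q.map β.Q ⊔ q.map β.F)).zero_mem
    · show QS.dg γ.b 1 ≤ _
      rw [γb, q.qs_dg]; exact (q.map_mono β.b_le).trans le_sup_left
    · exact t.elim0
  have gPQ : γ.P ⊔ γ.Q ≤ (q.map β.P ⊔ q.map β.Q) ⊔ q.map β.F :=
    sup_le (gP.trans (sup_le_sup_right le_sup_left _)) (gQ.trans (sup_le_sup_right le_sup_right _))
  have g3 : γ.z3 = q.qs β.z3 := by
    have e1 : q.qs β.z3 = q.qs β.z + Yv (fun l => q.qs (β.x l)) (fun l => q.qs (β.C l)) (fun l => q.qs (β.A l))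
        (fun l => q.qs (β.y l)) (q.qs β.a) (q.qs β.b) := by
      rw [← Yv_map, ← map_add]; rfl
    have e2 : γ.z3 = q.qs β.z + Yv (fun i => q.qs (β.x i)) G (fun _ : Fin 1 => (0 : QS W))
        (fun _ => q.qs (β.y j0)) (q.qs β.a - ∑ j, c j * q.qs (β.y j)) (q.qs β.b) := by
      rw [← γz, ← γx, ← γC, ← γA, ← γy, ← γa, ← γb]; rfl
    rw [e1, e2]
    unfold Yv
    have e3 : ∑ i, q.qs (β.x i) * G i = ∑ i, q.qs (β.x i) * q.qs (β.C i) -
        ∑ i, ∑ j, q.qs (β.x i) * (Φ j i * q.qs (β.y j)) := by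
      rw [← Finset.sum_sub_distrib]
      apply Finset.sum_congr rfl
      intro i _
      rw [hG]
      simp only [mul_sub, Finset.mul_sum]
    have e4 : ∑ j, q.qs (β.A j) * q.qs (β.y j) = ∑ i, ∑ j, q.qs (β.x i) * (Φ j i * q.qs (β.y j)) +
        ∑ j, c j * q.qs (β.y j) := by
      rw [Finset.sum_comm, ← Finset.sum_add_distrib]
      apply Finset.sum_congr rfl
      intro j _
      have e5 : q.qs (β.A j) = ∑ l, Φ j l * q.qs (β.x l) + c j := by rw [hc]; ring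
      rw [e5, add_mul, Finset.sum_mul]
      congr 1
      apply Finset.sum_congr rfl
      intro l _
      ring
    rw [e3, e4]
    simp only [zero_mul, Finset.sum_const_zero]
    ring
  have gok : γ.Ok := by
    refine ⟨?_, ?_, ?_, ?_, ?_, ?_⟩
    · rw [γF, γz]
      have h1 : I (QS.dg (q.qs β.z) 1) (q.map β.P ⊔ q.map β.Q) (q.map β.F) = 0 := by
        rw [q.qs_dg, ← q.map_sup, q.I_map]
        exact ok.i1
      exact I_zero_mono h1 le_sup_left gPQ
    · rw [γF, g3]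
      have h1 : I (QS.dg (q.qs β.z3) 1) (q.map β.P ⊔ q.map β.Q) (q.map β.F) = 0 := by
        rw [q.qs_dg, ← q.map_sup, q.I_map]
        exact ok.i2
      exact I_zero_mono h1 le_sup_left gPQ
    · rw [γF]
      have h1 : I (q.map β.P) (q.map β.Q) (q.map β.F) = 0 := by
        rw [q.I_map]
        exact ok.i3
      exact I_zero_mono h1 gP gQ
    · unfold QS.Rl
      rw [γF, γx, q.qs_vd, q.h_map]
      exact ok.rx
    · unfold QS.Rl
      have h1 : QS.vd (fun _ : Fin 1 => q.qs (β.y j0)) 1 = q.map (QS.dg (β.y j0) 1) := by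
        rw [← q.qs_dg]
        apply le_antisymm
        · rw [QS.vd_le]
          exact fun _ => le_rfl
        · exact QS.dg_le_vd (fun _ : Fin 1 => q.qs (β.y j0)) 1 0
      rw [γF, γy, h1, q.h_map, ok.ry.dg_one j0]
      simp
    · rw [γF, γz]
      exact ok.un.map q
  have lG : ∀ i, QS.dg (G i) 1 ≤ q.map β.F := by
    intro i
    rw [← γF, ← γC]
    exact core_zero gok γA i
  refine ⟨W, p, q, Φ, c, G, ch.com, hind, hΦ1, lc, lG, fun j => ?_, fun j => ?_, fun i => ?_⟩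
  · rw [hc' j]; ring
  · rw [hc]; ring
  · rw [hG]; ring

end Blk

end

end Pool.Agent.Helper61.EC
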