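import Pool.Agent.Helper61.EC.Wec
import Pool.Agent.Helper61.EC.WGK
import Pool.Agent.Helper92.WA.All

/-! Theorem W in the exact calculus, unconditional forms. -/

namespace Pool.Agent.Helper61.EC

open Finset Pool.Agent.Helper31.EC

noncomputable section

variable {S : Sp}

/-- THEOREM W (p = 2), over an arbitrary base, with a window -/
theorem wecl : WECL := wecl_of Pool.Agent.Helper92.WA.st_WA

theorem weca : WECA := weca_of Pool.Agent.Helper92.WA.st_WA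

/-- THEOREM W (p = 2), helper31's statement -/
theorem wec : WEC := wec_of Pool.Agent.Helper92.WA.st_WA

/-- robustly unsaturated functions satisfy the p = 2 theorem on all extensions -/
theorem uns_of {z : QS S} {F : S.L} {a0 c : ℝ} (hc : 0 < c) (h01 : a0 < 1) (hz : UnS z F a0 c) : Uns z F := by
  intro T p B hB X Y h1 h2 h3 h4 h5
  have h6 := wecl T B (p.qs z) _ X Y c a0 hc h01 rfl h1 h2 h3 h4 h5 ((hz.pull p).mono hB)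
  exact sub_eq_zero.mp h6

/-- THEOREM W(g,k) -/
theorem w_gk {ι : Type} [Fintype ι] {g k : ℕ} (hg : 0 < g) (hk : 0 < k) (B : ι → QS S) (T C : Fin g → QS S)
    (A T1 : Fin k → QS S) (z z3 : QS S) {a0 c : ℝ} (hc : 0 < c) (h01 : a0 < 1)
    (hz3 : z3 = z + (∑ i, T i * C i - ∑ j, A j * T1 j))
    (i1 : I (QS.dg z 1) ((QS.vd C 1 ⊔ QS.vd T1 1) ⊔ (QS.vd T 1 ⊔ QS.vd A 1)) (QS.vd B 1) = 0)
    (i2 : I (QS.dg z3 1) ((QS.vd C 1 ⊔ QS.vd T1 1) ⊔ (QS.vd T 1 ⊔ QS.vd A 1)) (QS.vd B 1) = 0)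
    (i3 : I (QS.vd C 1 ⊔ QS.vd T1 1) (QS.vd T 1 ⊔ QS.vd A 1) (QS.vd B 1) = 0)
    (rT : QS.Rl T (QS.vd B 1)) (rT1 : QS.Rl T1 (QS.vd B 1)) (un : UnS z (QS.vd B 1) a0 c) :
    ∃ (E : Sp) (p : Pj E S) (Φ : Fin k → Fin g → QS E) (c0 : Fin k → QS E) (c1 : Fin g → QS E),
      (∀ j i, QS.dg (Φ j i) 1 ≤ p.map (QS.vd B 1)) ∧ (∀ j, QS.dg (c0 j) 1 ≤ p.map (QS.vd B 1)) ∧
      (∀ i, QS.dg (c1 i) 1 ≤ p.map (QS.vd B 1)) ∧
      (∀ j, p.qs (A j) = ∑ i, Φ j i * p.qs (T i) + c0 j) ∧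
      ∀ i, p.qs (C i) = ∑ j, Φ j i * p.qs (T1 j) + c1 i := by
  obtain ⟨β, βz, βx, βC, βA, βy, βa, βb, βF, βP, βQ⟩ : ∃ β : Blk S g k (Fin 0) (Fin 0) ι,
      β.z = z ∧ β.x = T ∧ β.C = C ∧ β.A = A ∧ β.y = T1 ∧ β.a = 0 ∧ β.b = 0 ∧ β.F = QS.vd B 1 ∧
      β.P ≤ QS.vd C 1 ⊔ QS.vd T1 1 ∧ β.Q ≤ QS.vd T 1 ⊔ QS.vd A 1 := by
    refine ⟨⟨z, T, C, A, T1, 0, 0, fun t => t.elim0, fun t => t.elim0, B⟩, rfl, rfl, rfl, rfl, rfl, rfl, rfl, rfl,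
      ?_, ?_⟩
    · unfold Blk.P
      rw [QS.vd_le]
      rintro (t | t | t | t)
      · exact (QS.dg_le_vd C 1 t).trans le_sup_left
      · exact (QS.dg_le_vd T1 1 t).trans le_sup_right
      · exact (QS.Kn S 1 le_rfl (QS.vd C 1 ⊔ QS.vd T1 1)).zero_mem
      · exact t.elim0
    · unfold Blk.Q
      rw [QS.vd_le]
      rintro (t | t | t | t)
      · exact (QS.dg_le_vd T 1 t).trans le_sup_left
      · exact (QS.dg_le_vd A 1 t).trans le_sup_right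
      · exact (QS.Kn S 1 le_rfl (QS.vd T 1 ⊔ QS.vd A 1)).zero_mem
      · exact t.elim0
  have β3 : β.z3 = z3 := by
    unfold Blk.z3 Yv
    rw [βz, βx, βC, βA, βy, βa, βb, hz3]
    ring
  have hPQ : β.P ⊔ β.Q ≤ ((QS.vd C 1 ⊔ QS.vd T1 1) ⊔ (QS.vd T 1 ⊔ QS.vd A 1)) ⊔ QS.vd B 1 :=
    (sup_le_sup βP βQ).trans le_sup_left
  have ok : β.Ok := by
    refine ⟨?_, ?_, ?_, ?_, ?_, ?_⟩
    · rw [βF, βz]; exact I_zero_mono i1 le_sup_left hPQ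
    · rw [βF, β3]; exact I_zero_mono i2 le_sup_left hPQ
    · rw [βF]; exact I_zero_mono i3 (βP.trans le_sup_left) (βQ.trans le_sup_left)
    · rw [βF, βx]; exact rT
    · rw [βF, βy]; exact rT1
    · rw [βF, βz]; exact uns_of hc h01 un
  obtain ⟨W, p, q, Φ, c0, G, -, -, hΦ, hc0, hG, -, hA, hC⟩ := Blk.W ok hg hk
  rw [βF] at hΦ hc0 hG
  rw [βA, βx] at hA
  rw [βC, βy] at hC
  exact ⟨W, q, Φ, c0, G, hΦ, hc0, hG, hA, hC⟩

end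

end Pool.Agent.Helper61.EC
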