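import Pool.Agent.Helper61.EC.Core

/-! Exact entropy calculus: Lemma W for all (g,k) by freezing coordinates: the chain and the theorem. -/

namespace Pool.Agent.Helper61.EC

open Finset Pool.Agent.Helper31.EC

set_option linter.unusedSectionVars false

noncomputable section

variable {S : Sp}

namespace Blk

variable {g k : ℕ} {ιp ιq ιf : Type} [Fintype ιp] [Fintype ιq] [Fintype ιf] (β : Blk S g k ιp ιq ιf)

/-- one step: the slope of `A_j` in the direction `x_i` is a label -/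
theorem core_phi {β : Blk S g k ιp ιq ιf} (ok : β.Ok) (i : Fin g) (j : Fin k) {D : Sp} (s1 s2 : Pj D S)
    (com : ∀ t, s1.qs (β.kf i t) = s2.qs (β.kf i t))
    (ci : I (s1.map β.Q) (s2.map β.Q) (s1.map (QS.vd (β.kf i) 1)) = 0) :
    ∃ φ : QS D, s1.qs (β.A j) - s2.qs (β.A j) = φ * (s1.qs (β.x i) - s2.qs (β.x i)) ∧
      QS.dg φ 1 ≤ s1.map β.F := by
  obtain ⟨hu, E, π1, π2, e1, hv, hF, hI, -⟩ := core ok i j s1 s2 com ci
  obtain ⟨w, hw⟩ := hu.exists_left_inv
  obtain ⟨v, hv'⟩ := hv.exists_left_inv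
  refine ⟨(s1.qs (β.A j) - s2.qs (β.A j)) * w, ?_, ?_⟩
  · rw [mul_assoc, hw, mul_one]
  · set φ := (s1.qs (β.A j) - s2.qs (β.A j)) * w with hφ
    rw [← π1.map_le]
    have lw : QS.dg w 1 ≤ s1.map β.Q ⊔ s2.map β.Q := by
      refine (QS.dg_inv_le hw le_rfl).trans ((QS.dg_sub_le _ _ le_rfl).trans ?_)
      rw [s1.qs_dg, s2.qs_dg]
      exact sup_le_sup (s1.map_mono (β.x_le i)) (s2.map_mono (β.x_le i))
    have lA : QS.dg (s1.qs (β.A j) - s2.qs (β.A j)) 1 ≤ s1.map β.Q ⊔ s2.map β.Q := by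
      refine (QS.dg_sub_le _ _ le_rfl).trans ?_
      rw [s1.qs_dg, s2.qs_dg]
      exact sup_le_sup (s1.map_mono (β.A_le j)) (s2.map_mono (β.A_le j))
    have l1 : π1.map (QS.dg φ 1) ≤ π1.map (s1.map β.Q ⊔ s2.map β.Q) := by
      apply π1.map_mono
      exact (QS.dg_mul_le _ _ le_rfl).trans (sup_le lA lw)
    have l2 : π1.map (QS.dg φ 1) ≤ π1.map (s1.map β.P) ⊔ π2.map (s1.map β.P) := by
      have a1 : π1.qs φ = (π2.qs (s1.qs (β.C i)) - π1.qs (s1.qs (β.C i))) * v := by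
        have b1 : π1.qs w * π1.qs (s1.qs (β.x i) - s2.qs (β.x i)) = 1 := by rw [← map_mul, hw, map_one]
        rw [hφ, map_mul]
        calc π1.qs (s1.qs (β.A j) - s2.qs (β.A j)) * π1.qs w =
              (π1.qs (s1.qs (β.A j) - s2.qs (β.A j)) * (π2.qs (s1.qs (β.y j)) - π1.qs (s1.qs (β.y j)))) * v *
                π1.qs w := by
                linear_combination (-(π1.qs (s1.qs (β.A j) - s2.qs (β.A j)) * π1.qs w)) * hv'
          _ = (π2.qs (s1.qs (β.C i)) - π1.qs (s1.qs (β.C i))) * v := by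
                rw [← e1]
                linear_combination ((π2.qs (s1.qs (β.C i)) - π1.qs (s1.qs (β.C i))) * v) * b1
      rw [← π1.qs_dg, a1]
      have l3 : QS.dg v 1 ≤ π1.map (s1.map β.P) ⊔ π2.map (s1.map β.P) := by
        refine (QS.dg_inv_le hv' le_rfl).trans ((QS.dg_sub_le _ _ le_rfl).trans ?_)
        rw [π2.qs_dg, π1.qs_dg, s1.qs_dg]
        exact sup_le ((π2.map_mono (s1.map_mono (β.y_le j))).trans le_sup_right)
          ((π1.map_mono (s1.map_mono (β.y_le j))).trans le_sup_left)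
      have l4 : QS.dg (π2.qs (s1.qs (β.C i)) - π1.qs (s1.qs (β.C i))) 1 ≤ π1.map (s1.map β.P) ⊔ π2.map (s1.map β.P) := by
        refine (QS.dg_sub_le _ _ le_rfl).trans ?_
        rw [π2.qs_dg, π1.qs_dg, s1.qs_dg]
        exact sup_le ((π2.map_mono (s1.map_mono (β.C_le i))).trans le_sup_right)
          ((π1.map_mono (s1.map_mono (β.C_le i))).trans le_sup_left)
      exact (QS.dg_mul_le _ _ le_rfl).trans (sup_le l4 l3)
    exact le_of_markov (l1.trans le_sup_left) (l2.trans le_sup_left) hI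

/-- the star family -/
def ef : Unit ⊕ ((Fin g ⊕ (Fin k ⊕ (Unit ⊕ ιp))) ⊕ ιf) → QS S := Sum.elim (fun _ => β.z3) (Sum.elim β.pf β.Fv)

/-- the star -/
def St : S.L := QS.dg β.z3 1 ⊔ (β.P ⊔ β.F)

theorem ef_eq : QS.vd β.ef 1 = β.St := by
  unfold ef St
  rw [vd_sum, vd_sum, vd_unit]
  rfl

theorem F_le_St : β.F ≤ β.St := le_sup_right.trans le_sup_right

/-- coordinates of index at least `m` -/
def hi (g m : ℕ) : Finset (Fin g) := Finset.univ.filter fun l => m ≤ (l : ℕ)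

/-- coordinates of index less than `m` -/
def lo (g m : ℕ) : Finset (Fin g) := Finset.univ.filter fun l => (l : ℕ) < m

theorem mem_hi {m : ℕ} {l : Fin g} : l ∈ hi g m ↔ m ≤ (l : ℕ) := by simp [hi]

theorem mem_lo {m : ℕ} {l : Fin g} : l ∈ lo g m ↔ (l : ℕ) < m := by simp [lo]

/-- the star is independent of `Q` -/
theorem St_indep {β : Blk S g k ιp ιq ιf} (ok : β.Ok) : I β.Q β.St β.F = 0 := by
  have h1 : I β.Q (β.P ⊔ QS.dg β.z3 1) β.F = 0 := by
    rw [I_comm]
    apply le_antisymm _ (I_nonneg _ _ _)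
    rw [I_chain, ok.i3, zero_add]
    have h2 := ok.i2
    rw [I_comm, I_chain] at h2
    have h3 := I_nonneg β.P (QS.dg β.z3 1) β.F
    have h4 := I_nonneg β.Q (QS.dg β.z3 1) (β.P ⊔ β.F)
    rw [I_comm]
    linarith
  refine I_zero_mono h1 le_sup_left ?_
  exact sup_le (le_sup_right.trans le_sup_left) (sup_le (le_sup_left.trans le_sup_left) le_sup_right)

theorem rl_St {β : Blk S g k ιp ιq ιf} (ok : β.Ok) : QS.Rl β.x β.St := by
  have h1 : I (QS.vd β.x 1) β.St β.F = 0 :=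
    I_zero_mono (St_indep ok) (((QS.vd_le _ _ _).mpr fun i => β.x_le i).trans le_sup_left) le_sup_left
  rw [I_zero_iff_h, sup_eq_left.mpr β.F_le_St] at h1
  unfold QS.Rl
  rw [h1]
  exact ok.rx

theorem xn_eq (i : Fin g) : QS.vd (β.xn i) 1 = QS.sd β.x (Finset.univ.erase i) := by
  apply le_antisymm
  · rw [QS.vd_le]
    intro l
    exact QS.dg_le_sd β.x (Finset.mem_erase.mpr ⟨l.2, Finset.mem_univ _⟩)
  · rw [QS.sd_le]
    intro l hl
    exact QS.dg_le_vd (β.xn i) 1 ⟨l, (Finset.mem_erase.mp hl).1⟩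

theorem sd_le_Q (s : Finset (Fin g)) : QS.sd β.x s ≤ β.Q := (QS.sd_le _ _ _).mpr fun i _ => β.x_le i

theorem sd_un {ι : Type} [DecidableEq ι] (x : ι → QS S) (s t : Finset ι) :
    QS.sd x (s ∪ t) = QS.sd x s ⊔ QS.sd x t := by
  unfold QS.sd
  exact Finset.sup_union

/-- the chain after `m` steps -/
structure Ch (m : ℕ) {W : Sp} (p q : Pj W S) : Prop where
  com : ∀ t, p.qs (β.ef t) = q.qs (β.ef t)
  comx : ∀ l : Fin g, m ≤ (l : ℕ) → p.qs (β.x l) = q.qs (β.x l)
  phi : ∃ Φ : Fin k → Fin g → QS W, (∀ j l, QS.dg (Φ j l) 1 ≤ q.map β.F) ∧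
    ∀ j, p.qs (β.A j) - q.qs (β.A j) = ∑ l, Φ j l * (p.qs (β.x l) - q.qs (β.x l))
  ind : 0 < m → I (p.map β.Q) (q.map β.Q) (q.map (β.St ⊔ QS.sd β.x (hi g m))) = 0

theorem ch_zero : β.Ch 0 (Pj.id S) (Pj.id S) where
  com := fun _ => rfl
  comx := fun _ _ => rfl
  phi := ⟨fun _ _ => 0, fun j l => by
    exact (QS.Kn S 1 le_rfl ((Pj.id S).map β.F)).zero_mem, fun j => by simp⟩
  ind := fun h => absurd h (lt_irrefl 0)

theorem ch_succ {β : Blk S g k ιp ιq ιf} (ok : β.Ok) {m : ℕ} (hm : m < g) {W : Sp} {p q : Pj W S} (c : β.Ch m p q) :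
    ∃ (D : Sp) (p' q' : Pj D S), β.Ch (m + 1) p' q' := by
  set i : Fin g := ⟨m, hm⟩ with hi'
  obtain ⟨D, p1, p2, com2, ci2⟩ := exists_copy q (β.kf i)
  have com3 : ∀ t, (p1.comp q).qs (β.kf i t) = p2.qs (β.kf i t) := fun t => by rw [Pj.comp_qs]; exact com2 t
  have ci3 : I ((p1.comp q).map β.Q) (p2.map β.Q) ((p1.comp q).map (QS.vd (β.kf i) 1)) = 0 := by
    rw [Pj.comp_map, Pj.comp_map]
    exact ci2 _ _
  have cz : p1.qs (q.qs β.z3) = p2.qs β.z3 := com2 (Sum.inl ())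
  have cp : ∀ t, p1.qs (q.qs (β.pf t)) = p2.qs (β.pf t) := fun t => com2 (Sum.inr (Sum.inl t))
  have cf : ∀ t, p1.qs (q.qs (β.Fv t)) = p2.qs (β.Fv t) := fun t => com2 (Sum.inr (Sum.inr (Sum.inl t)))
  have cx : ∀ l : Fin g, l ≠ i → p1.qs (q.qs (β.x l)) = p2.qs (β.x l) :=
    fun l hl => com2 (Sum.inr (Sum.inr (Sum.inr ⟨l, hl⟩)))
  have ce : ∀ t, p1.qs (q.qs (β.ef t)) = p2.qs (β.ef t) := by
    rintro (t | t | t)
    · exact cz
    · exact cp t
    · exact cf t
  have cF : p1.map (q.map β.F) = p2.map β.F := by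
    rw [← Pj.comp_map]
    exact vd_com (s1 := p1.comp q) (fun t => by rw [Pj.comp_qs]; exact cf t) 1
  have cSt : p1.map (q.map β.St) = p2.map β.St := by
    rw [← Pj.comp_map, ← β.ef_eq]
    exact vd_com (s1 := p1.comp q) (fun t => by rw [Pj.comp_qs]; exact ce t) 1
  have hphi := fun j => core_phi ok i j (p1.comp q) p2 com3 ci3
  choose φ hφ1 hφ2 using hphi
  obtain ⟨Φ, hΦ1, hΦ2⟩ := c.phi
  refine ⟨D, p1.comp p, p2, ⟨fun t => ?_, fun l hl => ?_, ⟨fun j l => if l = i then φ j else p1.qs (Φ j l),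
    fun j l => ?_, fun j => ?_⟩, fun _ => ?_⟩⟩
  · rw [Pj.comp_qs, c.com t]
    exact ce t
  · rw [Pj.comp_qs, c.comx l (by omega)]
    apply cx
    intro hc
    rw [hc, hi'] at hl
    simp at hl
  · by_cases hl : l = i
    · simp only [if_pos hl]
      refine (hφ2 j).trans ?_
      rw [Pj.comp_map, cF]
    · simp only [if_neg hl]
      rw [p1.qs_dg, ← cF]
      exact p1.map_mono (hΦ1 j l)
  · have a1 := hφ1 j
    rw [Pj.comp_qs, Pj.comp_qs] at a1
    have a2 := congrArg p1.qs (hΦ2 j)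
    rw [map_sub, map_sum] at a2
    simp only [map_mul, map_sub] at a2
    have a3 : ∀ l, (if l = i then φ j else p1.qs (Φ j l)) * ((p1.comp p).qs (β.x l) - p2.qs (β.x l)) =
        p1.qs (Φ j l) * (p1.qs (p.qs (β.x l)) - p1.qs (q.qs (β.x l))) +
          (if l = i then φ j * (p1.qs (q.qs (β.x i)) - p2.qs (β.x i)) else 0) := by
      intro l
      rw [Pj.comp_qs]
      by_cases hl : l = i
      · rw [if_pos hl, if_pos hl, hl, c.comx i (by rw [hi'])]
        ring
      · rw [if_neg hl, if_neg hl, cx l hl]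
        ring
    rw [Finset.sum_congr rfl fun l _ => a3 l, Finset.sum_add_distrib, ← a2, Finset.sum_ite_eq' Finset.univ i,
      if_pos (Finset.mem_univ i), ← a1, Pj.comp_qs]
    ring
  · -- independence
    rw [Pj.comp_map]
    set U : D.L := p1.map (q.map (QS.sd β.x (lo g m))) with hU
    set w : D.L := p1.map (q.map (QS.dg (β.x i) 1)) with hw
    set V : D.L := p1.map (q.map (QS.sd β.x (hi g (m + 1)))) with hV
    set E : D.L := p1.map (q.map β.St) with hE
    have hV' : p2.map (QS.sd β.x (hi g (m + 1))) = V := by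
      apply le_antisymm
      · unfold QS.sd
        rw [p2.map_finsup]
        apply Finset.sup_le
        intro l hl
        have hl' := mem_hi.mp hl
        rw [← p2.qs_dg, ← cx l (by rintro rfl; rw [hi'] at hl'; simp at hl'), p1.qs_dg, q.qs_dg]
        exact p1.map_mono (q.map_mono (QS.dg_le_sd β.x hl))
      · rw [hV, ← Pj.comp_map]
        unfold QS.sd
        rw [(p1.comp q).map_finsup]
        apply Finset.sup_le
        intro l hl
        have hl' := mem_hi.mp hl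
        rw [← Pj.qs_dg, Pj.comp_qs, cx l (by rintro rfl; rw [hi'] at hl'; simp at hl'), p2.qs_dg]
        exact p2.map_mono (QS.dg_le_sd β.x hl)
    have tgt : p2.map (β.St ⊔ QS.sd β.x (hi g (m + 1))) = E ⊔ V := by
      rw [p2.map_sup, hV', ← cSt]
    rw [tgt]
    have hhi : QS.sd β.x (hi g m) = QS.dg (β.x i) 1 ⊔ QS.sd β.x (hi g (m + 1)) := by
      have b1 : hi g m = {i} ∪ hi g (m + 1) := by
        ext l
        rw [Finset.mem_union, Finset.mem_singleton, mem_hi, mem_hi, Fin.ext_iff]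
        simp only [hi']
        omega
      rw [b1, sd_un]
      congr 1
      simp [QS.sd]
    have hxn : QS.vd (β.xn i) 1 = QS.sd β.x (lo g m) ⊔ QS.sd β.x (hi g (m + 1)) := by
      rw [β.xn_eq, ← sd_un]
      congr 1
      ext l
      rw [Finset.mem_erase, Finset.mem_union, mem_lo, mem_hi, Ne, Fin.ext_iff]
      simp only [hi', Finset.mem_univ, and_true]
      omega
    -- (1)
    have b1 : I (p1.map (p.map β.Q)) U (w ⊔ (E ⊔ V)) = 0 := by
      rcases Nat.eq_zero_or_pos m with h0 | h0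
      · apply I_zero_of_le_right
        have : QS.sd β.x (lo g m) = ⊥ := by
          have e : lo g m = ∅ := by
            ext l
            rw [mem_lo, h0]
            simp
          rw [e]
          simp [QS.sd]
        rw [hU, this, Pj.map_bot, Pj.map_bot]
        exact bot_le
      · have b2 := c.ind h0
        rw [← p1.I_map] at b2
        have b3 : p1.map (q.map (β.St ⊔ QS.sd β.x (hi g m))) = w ⊔ (E ⊔ V) := by
          rw [hhi, q.map_sup, q.map_sup, p1.map_sup, p1.map_sup]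
          exact sup_left_comm _ _ _
        rw [b3] at b2
        exact I_zero_mono b2 le_sup_left ((p1.map_mono (q.map_mono (β.sd_le_Q _))).trans le_sup_left)
    -- (2)
    have b2 : I w U (E ⊔ V) = 0 := by
      have c1 := (rl_St ok).sub (s := {i}) (t := hi g (m + 1)) (by
        rw [Finset.disjoint_singleton_left, mem_hi]; simp [hi'])
      have c2 := (rl_St ok).sub (s := {i}) (t := lo g m ∪ hi g (m + 1)) (by
        rw [Finset.disjoint_singleton_left, Finset.mem_union, mem_hi, mem_lo]; simp [hi'])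
      rw [sd_un] at c2
      have c3 : QS.sd β.x {i} = QS.dg (β.x i) 1 := by simp [QS.sd]
      rw [c3] at c1 c2
      have c4 : I (QS.dg (β.x i) 1) (QS.sd β.x (lo g m)) (QS.sd β.x (hi g (m + 1)) ⊔ β.St) = 0 := by
        rw [I_zero_iff_h, ← sup_assoc, c1, c2]
      have c5 : E ⊔ V = p1.map (q.map (QS.sd β.x (hi g (m + 1)) ⊔ β.St)) := by
        rw [q.map_sup, p1.map_sup, sup_comm]
      rw [c5, p1.I_map, q.I_map]
      exact c4
    have b3 : I (p1.map (p.map β.Q)) U (E ⊔ V) = 0 := by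
      have c1 : I (w ⊔ p1.map (p.map β.Q)) U (E ⊔ V) = 0 := by rw [I_chain, b2, b1, add_zero]
      exact I_zero_mono c1 (le_sup_right.trans le_sup_left) le_sup_left
    have b4 : I (p1.map (p.map β.Q)) (p2.map β.Q) (U ⊔ (E ⊔ V)) = 0 := by
      have c1 := ci2 (p.map β.Q) β.Q
      have c2 : p1.map (q.map (QS.vd (β.kf i) 1)) = U ⊔ (E ⊔ V) := by
        rw [β.kf_eq, hxn]
        have c3 : β.z3.dg 1 ⊔ (β.P ⊔ (β.F ⊔ (QS.sd β.x (lo g m) ⊔ QS.sd β.x (hi g (m + 1))))) =
            QS.sd β.x (lo g m) ⊔ (β.St ⊔ QS.sd β.x (hi g (m + 1))) := by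
          unfold St
          ac_rfl
        rw [c3, q.map_sup, q.map_sup, p1.map_sup, p1.map_sup]
      rw [c2] at c1
      exact c1
    have b5 := I_contract b3 b4
    exact I_zero_mono b5 le_sup_left (le_sup_right.trans le_sup_left)

theorem ch_all {β : Blk S g k ιp ιq ιf} (ok : β.Ok) (m : ℕ) (hm : m ≤ g) :
    ∃ (D : Sp) (p q : Pj D S), β.Ch m p q := by
  induction m with
  | zero => exact ⟨S, Pj.id S, Pj.id S, β.ch_zero⟩
  | succ m ih =>
    obtain ⟨W, p, q, c⟩ := ih (by omega)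
    exact ch_succ ok (by omega) c

end Blk

end

end Pool.Agent.Helper61.EC
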