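import Pool.Agent.Helper31.EC.Rl

/-! Exact entropy calculus: Lemma W for all (g,k) by freezing coordinates (ns_notes_61), the core: one pair (i,j).
A block is a base variable `z` and two sided data `P = (C,y,a)`, `Q = (x,A,b)` such that both `z` and
`z + x.C - A.y + a + b` are independent of `(P,Q)` and `P`, `Q` are independent. -/

namespace Pool.Agent.Helper61.EC

open Finset Pool.Agent.Helper31.EC

set_option linter.unusedSectionVars false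

noncomputable section

section lattice

variable {L : Type*} [PM L]

theorem I_h3 (A B C : L) : I A B C = h A C + h B C - h (A ⊔ B) C := by
  unfold I h; ring

/-- three informations whose joint entropy is maximal are independent -/
theorem three {A B C F : L} {a b c : ℝ} (hA : h A F ≤ a) (hB : h B F ≤ b) (hC : h C F ≤ c)
    (hT : a + b + c ≤ h (A ⊔ (B ⊔ C)) F) :
    h A F = a ∧ h B F = b ∧ h C F = c ∧ I A (B ⊔ C) F = 0 ∧ I B C F = 0 := by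
  have h1 := I_h3 A (B ⊔ C) F
  have h2 := I_h3 B C F
  have h3 := I_nonneg A (B ⊔ C) F
  have h4 := I_nonneg B C F
  refine ⟨?_, ?_, ?_, ?_, ?_⟩ <;> linarith

end lattice

variable {S : Sp}

theorem vd_sum {ι κ : Type} [Fintype ι] [Fintype κ] (f : ι → QS S) (g : κ → QS S) (r : ℝ) :
    QS.vd (Sum.elim f g) r = QS.vd f r ⊔ QS.vd g r := by
  apply le_antisymm
  · rw [QS.vd_le]
    rintro (i | i)
    · exact (QS.dg_le_vd f r i).trans le_sup_left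
    · exact (QS.dg_le_vd g r i).trans le_sup_right
  · apply sup_le
    · rw [QS.vd_le]
      intro i
      exact QS.dg_le_vd (Sum.elim f g) r (Sum.inl i)
    · rw [QS.vd_le]
      intro i
      exact QS.dg_le_vd (Sum.elim f g) r (Sum.inr i)

theorem vd_unit (f : QS S) (r : ℝ) : QS.vd (fun _ : Unit => f) r = QS.dg f r := by
  apply le_antisymm
  · rw [QS.vd_le]
    intro _
    exact le_rfl
  · exact QS.dg_le_vd (fun _ : Unit => f) r ()

/-- copies given a finite family -/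
theorem exists_copy {W S : Sp} (p : Pj W S) {ι : Type} [Fintype ι] (f : ι → QS S) :
    ∃ (D : Sp) (p1 : Pj D W) (p2 : Pj D S), (∀ i, p1.qs (p.qs (f i)) = p2.qs (f i)) ∧
      (∀ x y, I (p1.map x) (p2.map y) (p1.map (p.map (QS.vd f 1))) = 0) := by
  obtain ⟨D, p1, p2, h1, h2⟩ := p.exists_copy (f ∘ (Fintype.equivFin ι).symm)
  refine ⟨D, p1, p2, fun i => ?_, fun x y => ?_⟩
  · have h3 := h1 (Fintype.equivFin ι i)
    simpa using h3
  · have h3 := h2 x y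
    rwa [QS.vd_equiv] at h3

theorem vd_com {D S : Sp} {s1 s2 : Pj D S} {ι : Type} [Fintype ι] {f : ι → QS S} (h : ∀ i, s1.qs (f i) = s2.qs (f i))
    (r : ℝ) : s1.map (QS.vd f r) = s2.map (QS.vd f r) := by
  rw [← s1.qs_vd, ← s2.qs_vd]
  congr 1
  funext i
  exact h i

/-- unsaturated variables: the p = 2 theorem holds for them on all extensions -/
def Uns {S : Sp} (z : QS S) (F : S.L) : Prop :=
  ∀ (T : Sp) (p : Pj T S) (B : T.L), p.map F ≤ B → ∀ X Y : Fin 2 → QS T,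
    I (QS.dg (p.qs z) 1) (QS.vd X 1 ⊔ QS.vd Y 1) B = 0 →
    I (QS.dg (p.qs z + (X 0 * Y 1 - X 1 * Y 0)) 1) (QS.vd X 1 ⊔ QS.vd Y 1) B = 0 →
    I (QS.vd X 1) (QS.vd Y 1) B = 0 → h (QS.dg (X 0) 1) B = 1 → h (QS.dg (Y 0) 1) B = 1 → X 0 * Y 1 = X 1 * Y 0

theorem Uns.map {T S : Sp} {z : QS S} {F : S.L} (hz : Uns z F) (p : Pj T S) : Uns (p.qs z) (p.map F) := by
  intro U q B hB X Y h1 h2 h3 h4 h5
  have h6 := hz U (q.comp p) B (by rw [Pj.comp_map]; exact hB) X Y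
  rw [Pj.comp_qs] at h6
  exact h6 h1 h2 h3 h4 h5

theorem Uns.mono {z : QS S} {F F' : S.L} (hz : Uns z F) (hF : F ≤ F') : Uns z F' :=
  fun U q B hB => hz U q B ((q.map_mono hF).trans hB)

/-- the right side of a block -/
def Yv {g k : ℕ} (x C : Fin g → QS S) (A y : Fin k → QS S) (a b : QS S) : QS S :=
  ∑ i, x i * C i - ∑ j, A j * y j + a + b

theorem Yv_mem {g k : ℕ} (R : Subring (QS S)) {x C : Fin g → QS S} {A y : Fin k → QS S} {a b : QS S}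
    (hx : ∀ i, x i ∈ R) (hC : ∀ i, C i ∈ R) (hA : ∀ i, A i ∈ R) (hy : ∀ i, y i ∈ R) (ha : a ∈ R) (hb : b ∈ R) :
    Yv x C A y a b ∈ R := by
  unfold Yv
  refine R.add_mem (R.add_mem (R.sub_mem ?_ ?_) ha) hb
  · exact R.sum_mem fun i _ => R.mul_mem (hx i) (hC i)
  · exact R.sum_mem fun i _ => R.mul_mem (hA i) (hy i)

theorem Yv_map {T : Sp} (p : Pj T S) {g k : ℕ} (x C : Fin g → QS S) (A y : Fin k → QS S) (a b : QS S) :
    p.qs (Yv x C A y a b) = Yv (fun i => p.qs (x i)) (fun i => p.qs (C i)) (fun i => p.qs (A i))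
      (fun i => p.qs (y i)) (p.qs a) (p.qs b) := by
  unfold Yv
  rw [map_add, map_add, map_sub, map_sum, map_sum]
  simp only [map_mul]

/-- blocks -/
structure Blk (S : Sp) (g k : ℕ) (ιp ιq ιf : Type) where
  z : QS S
  x : Fin g → QS S
  C : Fin g → QS S
  A : Fin k → QS S
  y : Fin k → QS S
  a : QS S
  b : QS S
  Pv : ιp → QS S
  Qv : ιq → QS S
  Fv : ιf → QS S

namespace Blk

variable {g k : ℕ} {ιp ιq ιf : Type} [Fintype ιp] [Fintype ιq] [Fintype ιf] (β : Blk S g k ιp ιq ιf)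

/-- the left family -/
def pf : Fin g ⊕ (Fin k ⊕ (Unit ⊕ ιp)) → QS S := Sum.elim β.C (Sum.elim β.y (Sum.elim (fun _ => β.a) β.Pv))

/-- the right family -/
def qf : Fin g ⊕ (Fin k ⊕ (Unit ⊕ ιq)) → QS S := Sum.elim β.x (Sum.elim β.A (Sum.elim (fun _ => β.b) β.Qv))

def P : S.L := QS.vd β.pf 1

def Q : S.L := QS.vd β.qf 1

def F : S.L := QS.vd β.Fv 1

/-- the other end -/
def z3 : QS S := β.z + Yv β.x β.C β.A β.y β.a β.b

/-- the coordinates of `x` different from `i` -/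
def xn (i : Fin g) : {l : Fin g // l ≠ i} → QS S := fun l => β.x l

/-- the coordinates of `y` different from `j` -/
def yn (j : Fin k) : {l : Fin k // l ≠ j} → QS S := fun l => β.y l

/-- the family kept by the copies of `Q` -/
def kf (i : Fin g) : Unit ⊕ ((Fin g ⊕ (Fin k ⊕ (Unit ⊕ ιp))) ⊕ (ιf ⊕ {l : Fin g // l ≠ i})) → QS S :=
  Sum.elim (fun _ => β.z3) (Sum.elim β.pf (Sum.elim β.Fv (β.xn i)))

/-- the conditions -/
structure Ok : Prop where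
  i1 : I (QS.dg β.z 1) (β.P ⊔ β.Q) β.F = 0
  i2 : I (QS.dg β.z3 1) (β.P ⊔ β.Q) β.F = 0
  i3 : I β.P β.Q β.F = 0
  rx : QS.Rl β.x β.F
  ry : QS.Rl β.y β.F
  un : Uns β.z β.F

theorem C_le (i : Fin g) : QS.dg (β.C i) 1 ≤ β.P := QS.dg_le_vd β.pf 1 (Sum.inl i)

theorem y_le (i : Fin k) : QS.dg (β.y i) 1 ≤ β.P := QS.dg_le_vd β.pf 1 (Sum.inr (Sum.inl i))

theorem a_le : QS.dg β.a 1 ≤ β.P := QS.dg_le_vd β.pf 1 (Sum.inr (Sum.inr (Sum.inl ())))

theorem x_le (i : Fin g) : QS.dg (β.x i) 1 ≤ β.Q := QS.dg_le_vd β.qf 1 (Sum.inl i)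

theorem A_le (i : Fin k) : QS.dg (β.A i) 1 ≤ β.Q := QS.dg_le_vd β.qf 1 (Sum.inr (Sum.inl i))

theorem b_le : QS.dg β.b 1 ≤ β.Q := QS.dg_le_vd β.qf 1 (Sum.inr (Sum.inr (Sum.inl ())))

theorem xn_le (i : Fin g) : QS.vd (β.xn i) 1 ≤ β.Q := (QS.vd_le _ _ _).mpr fun l => β.x_le l

theorem yn_le (j : Fin k) : QS.vd (β.yn j) 1 ≤ β.P := (QS.vd_le _ _ _).mpr fun l => β.y_le l

theorem kf_eq (i : Fin g) : QS.vd (β.kf i) 1 = QS.dg β.z3 1 ⊔ (β.P ⊔ (β.F ⊔ QS.vd (β.xn i) 1)) := by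
  unfold kf
  rw [vd_sum, vd_sum, vd_sum, vd_unit]
  rfl

theorem Y_mem : QS.dg (Yv β.x β.C β.A β.y β.a β.b) 1 ≤ β.P ⊔ β.Q := by
  refine Yv_mem (QS.Kn S 1 le_rfl (β.P ⊔ β.Q)) ?_ ?_ ?_ ?_ ?_ ?_
  · exact fun i => (β.x_le i).trans le_sup_right
  · exact fun i => (β.C_le i).trans le_sup_left
  · exact fun i => (β.A_le i).trans le_sup_right
  · exact fun i => (β.y_le i).trans le_sup_left
  · exact β.a_le.trans le_sup_left
  · exact β.b_le.trans le_sup_right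

theorem z3_le : QS.dg β.z3 1 ≤ QS.dg β.z 1 ⊔ (β.P ⊔ β.Q) :=
  (QS.dg_add_le _ _ le_rfl).trans (sup_le_sup_left β.Y_mem _)

theorem z_le : QS.dg β.z 1 ≤ QS.dg β.z3 1 ⊔ (β.P ⊔ β.Q) := by
  have h1 : β.z = β.z3 - Yv β.x β.C β.A β.y β.a β.b := by
    unfold z3; ring
  rw [h1]
  exact (QS.dg_sub_le _ _ le_rfl).trans (sup_le le_sup_left (β.Y_mem.trans le_sup_right))

theorem z3_le_map {D : Sp} (s : Pj D S) :
    QS.dg (s.qs β.z3) 1 ≤ QS.dg (s.qs β.z) 1 ⊔ (s.map β.P ⊔ s.map β.Q) := by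
  rw [s.qs_dg, s.qs_dg, ← s.map_sup, ← s.map_sup]
  exact s.map_mono β.z3_le

theorem z_le_map {D : Sp} (s : Pj D S) :
    QS.dg (s.qs β.z) 1 ≤ QS.dg (s.qs β.z3) 1 ⊔ (s.map β.P ⊔ s.map β.Q) := by
  rw [s.qs_dg, s.qs_dg, ← s.map_sup, ← s.map_sup]
  exact s.map_mono β.z_le

/-- `x_i` is real over the other coordinates -/
theorem h_xi {β : Blk S g k ιp ιq ιf} (ok : β.Ok) (i : Fin g) :
    h (QS.dg (β.x i) 1) (QS.vd (β.xn i) 1 ⊔ β.F) = 1 := by
  have h1 := ok.rx.sub (s := {i}) (t := Finset.univ.erase i) (by simp)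
  rw [Finset.card_singleton, Nat.cast_one] at h1
  have h2 : QS.sd β.x {i} = QS.dg (β.x i) 1 := by simp [QS.sd]
  have h3 : QS.sd β.x (Finset.univ.erase i) = QS.vd (β.xn i) 1 := by
    apply le_antisymm
    · rw [QS.sd_le]
      intro l hl
      exact QS.dg_le_vd (β.xn i) 1 ⟨l, (Finset.mem_erase.mp hl).1⟩
    · rw [QS.vd_le]
      intro l
      exact QS.dg_le_sd β.x (Finset.mem_erase.mpr ⟨l.2, Finset.mem_univ _⟩)
  rwa [h2, h3] at h1

theorem h_yj {β : Blk S g k ιp ιq ιf} (ok : β.Ok) (j : Fin k) :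
    h (QS.dg (β.y j) 1) (QS.vd (β.yn j) 1 ⊔ β.F) = 1 := by
  have h1 := ok.ry.sub (s := {j}) (t := Finset.univ.erase j) (by simp)
  rw [Finset.card_singleton, Nat.cast_one] at h1
  have h2 : QS.sd β.y {j} = QS.dg (β.y j) 1 := by simp [QS.sd]
  have h3 : QS.sd β.y (Finset.univ.erase j) = QS.vd (β.yn j) 1 := by
    apply le_antisymm
    · rw [QS.sd_le]
      intro l hl
      exact QS.dg_le_vd (β.yn j) 1 ⟨l, (Finset.mem_erase.mp hl).1⟩
    · rw [QS.vd_le]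
      intro l
      exact QS.dg_le_sd β.y (Finset.mem_erase.mpr ⟨l.2, Finset.mem_univ _⟩)
  rwa [h2, h3] at h1

/-- entropies of a block -/
theorem h_zPQ {β : Blk S g k ιp ιq ιf} (ok : β.Ok) :
    h (QS.dg β.z 1 ⊔ (β.P ⊔ β.Q)) β.F = h (QS.dg β.z 1) β.F + h β.P β.F + h β.Q β.F := by
  have h1 := I_h3 (QS.dg β.z 1) (β.P ⊔ β.Q) β.F
  have h2 := I_h3 β.P β.Q β.F
  rw [ok.i1] at h1
  rw [ok.i3] at h2
  linarith

/-- `Q` given the star and a part `u` of `Q` -/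
theorem h_star {β : Blk S g k ιp ιq ιf} (ok : β.Ok) {u : S.L} (hu : u ≤ β.Q) {A : S.L} (hA : A ≤ β.Q) :
    h A (QS.dg β.z3 1 ⊔ (β.P ⊔ (β.F ⊔ u))) = h A (u ⊔ β.F) := by
  have h1 : I β.Q (β.P ⊔ QS.dg β.z3 1) β.F = 0 := by
    rw [I_comm]
    apply le_antisymm _ (I_nonneg _ _ _)
    rw [I_chain, ok.i3, zero_add]
    have h2 := ok.i2
    rw [I_comm, I_chain] at h2
    have h3 := I_nonneg β.P (QS.dg β.z3 1) β.F
    have h4 := I_nonneg β.Q (QS.dg β.z3 1) (β.P ⊔ β.F)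
    rw [I_comm]
    linarith
  have h2 : I A (β.P ⊔ QS.dg β.z3 1) (u ⊔ β.F) = 0 := by
    have h3 : I (u ⊔ A) (β.P ⊔ QS.dg β.z3 1) β.F = 0 := I_zero_mono h1 ((sup_le hu hA).trans le_sup_left) le_sup_left
    rw [I_chain] at h3
    have h4 := I_nonneg u (β.P ⊔ QS.dg β.z3 1) β.F
    have h5 := I_nonneg A (β.P ⊔ QS.dg β.z3 1) (u ⊔ β.F)
    linarith
  rw [I_zero_iff_h] at h2
  rw [← h2]
  congr 1
  apply le_antisymm
  · exact sup_le (le_sup_right.trans le_sup_left) (sup_le (le_sup_left.trans le_sup_left)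
      (sup_le (le_sup_right.trans le_sup_right) (le_sup_left.trans le_sup_right)))
  · exact sup_le (sup_le (le_sup_left.trans le_sup_right) le_sup_left)
      (sup_le (le_sup_right.trans (le_sup_right.trans le_sup_right)) (le_sup_left.trans (le_sup_right.trans le_sup_right)))

/-- CORE: one pair of coordinates -/
theorem core {β : Blk S g k ιp ιq ιf} (ok : β.Ok) (i : Fin g) (j : Fin k) {D : Sp} (s1 s2 : Pj D S)
    (com : ∀ t, s1.qs (β.kf i t) = s2.qs (β.kf i t))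
    (ci : I (s1.map β.Q) (s2.map β.Q) (s1.map (QS.vd (β.kf i) 1)) = 0) :
    IsUnit (s1.qs (β.x i) - s2.qs (β.x i)) ∧
    ∃ (E : Sp) (π1 π2 : Pj E D),
      π1.qs (s1.qs (β.x i) - s2.qs (β.x i)) * (π2.qs (s1.qs (β.C i)) - π1.qs (s1.qs (β.C i))) =
        π1.qs (s1.qs (β.A j) - s2.qs (β.A j)) * (π2.qs (s1.qs (β.y j)) - π1.qs (s1.qs (β.y j))) ∧
      IsUnit (π2.qs (s1.qs (β.y j)) - π1.qs (s1.qs (β.y j))) ∧
      π1.map (s1.map β.F) = π2.map (s1.map β.F) ∧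
      I (π1.map (s1.map β.Q ⊔ s2.map β.Q)) (π1.map (s1.map β.P) ⊔ π2.map (s1.map β.P)) (π1.map (s1.map β.F)) = 0 ∧
      I (π1.map (s1.map β.P)) (π2.map (s1.map β.P)) (π1.map (s1.map (QS.vd (β.yn j) 1 ⊔ β.F))) = 0 := by
  -- the common parts
  have cz : s1.qs β.z3 = s2.qs β.z3 := com (Sum.inl ())
  have cp : ∀ t, s1.qs (β.pf t) = s2.qs (β.pf t) := fun t => com (Sum.inr (Sum.inl t))
  have cf : ∀ t, s1.qs (β.Fv t) = s2.qs (β.Fv t) := fun t => com (Sum.inr (Sum.inr (Sum.inl t)))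
  have cx : ∀ t, s1.qs (β.xn i t) = s2.qs (β.xn i t) := fun t => com (Sum.inr (Sum.inr (Sum.inr t)))
  have cC : ∀ l, s1.qs (β.C l) = s2.qs (β.C l) := fun l => cp (Sum.inl l)
  have cy : ∀ l, s1.qs (β.y l) = s2.qs (β.y l) := fun l => cp (Sum.inr (Sum.inl l))
  have ca : s1.qs β.a = s2.qs β.a := cp (Sum.inr (Sum.inr (Sum.inl ())))
  have cP : s1.map β.P = s2.map β.P := vd_com cp 1
  have cF : s1.map β.F = s2.map β.F := vd_com cf 1
  have cX : s1.map (QS.vd (β.xn i) 1) = s2.map (QS.vd (β.xn i) 1) := vd_com cx 1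
  set hz := h (QS.dg β.z 1) β.F with hhz
  set hP := h β.P β.F with hhP
  set hQ := h β.Q β.F with hhQ
  set hQu := h β.Q (QS.vd (β.xn i) 1 ⊔ β.F) with hhQu
  set hPv := h β.P (QS.vd (β.yn j) 1 ⊔ β.F) with hhPv
  -- names in D
  set z : QS D := s1.qs β.z with hzd
  set zs : QS D := s2.qs β.z with hzs
  set P : D.L := s1.map β.P with hPd
  set Q : D.L := s1.map β.Q with hQd
  set Q' : D.L := s2.map β.Q with hQd'
  set F : D.L := s1.map β.F with hFd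
  set u : D.L := s1.map (QS.vd (β.xn i) 1) with hud
  set v : D.L := s1.map (QS.vd (β.yn j) 1) with hvd
  have uQ : u ≤ Q := s1.map_mono (β.xn_le i)
  have uQ' : u ≤ Q' := by rw [cX]; exact s2.map_mono (β.xn_le i)
  have vP : v ≤ P := s1.map_mono (β.yn_le j)
  -- entropies in D
  have d1 : h Q' (Q ⊔ (QS.dg (s1.qs β.z3) 1 ⊔ (P ⊔ (F ⊔ u)))) = hQu := by
    have e1 : s1.map (QS.vd (β.kf i) 1) = QS.dg (s1.qs β.z3) 1 ⊔ (P ⊔ (F ⊔ u)) := by
      rw [β.kf_eq, s1.map_sup, s1.map_sup, s1.map_sup, s1.qs_dg]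
    have e2 : s1.map (QS.vd (β.kf i) 1) = s2.map (QS.vd (β.kf i) 1) := vd_com com 1
    rw [I_zero_iff_h'] at ci
    rw [← e1, ci, e2, Pj.h_map, β.kf_eq, h_star ok (β.xn_le i) le_rfl]
  have d2 : h (QS.dg z 1 ⊔ (P ⊔ Q)) F = hz + hP + hQ := by
    rw [← h_zPQ ok, ← s1.h_map]
    rw [s1.map_sup, s1.map_sup, s1.qs_dg]
  have z3le : QS.dg (s1.qs β.z3) 1 ≤ QS.dg z 1 ⊔ (P ⊔ Q) := β.z3_le_map s1
  have zle : QS.dg z 1 ≤ QS.dg (s1.qs β.z3) 1 ⊔ (P ⊔ Q) := β.z_le_map s1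
  have zsle : QS.dg zs 1 ≤ QS.dg (s1.qs β.z3) 1 ⊔ (P ⊔ Q') := by
    rw [cz, cP]
    exact β.z_le_map s2
  have z3le' : QS.dg (s1.qs β.z3) 1 ≤ QS.dg zs 1 ⊔ (P ⊔ Q') := by
    rw [cz, cP]
    exact β.z3_le_map s2
  have d3 : h ((QS.dg z 1 ⊔ (P ⊔ Q)) ⊔ Q') F = hz + hP + hQ + hQu := by
    rw [h_chain, d2]
    congr 1
    rw [← d1]
    congr 1
    apply le_antisymm
    · refine sup_le (sup_le ?_ (sup_le ?_ le_sup_left)) ?_
      · exact zle.trans (sup_le (le_sup_left.trans le_sup_right)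
          (sup_le ((le_sup_left.trans le_sup_right).trans le_sup_right) le_sup_left))
      · exact (le_sup_left.trans le_sup_right).trans le_sup_right
      · exact ((le_sup_left.trans le_sup_right).trans le_sup_right).trans le_sup_right
    · refine sup_le (le_sup_right.trans (le_sup_right.trans le_sup_left)) (sup_le (z3le.trans le_sup_left) (sup_le ?_ (sup_le le_sup_right ?_)))
      · exact (le_sup_left.trans le_sup_right).trans le_sup_left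
      · exact uQ.trans (le_sup_right.trans (le_sup_right.trans le_sup_left))
  have hPD : h P F = hP := s1.h_map _ _
  have hQD : h Q F = hQ := s1.h_map _ _
  have hzD : h (QS.dg z 1) F = hz := by rw [hzd, s1.qs_dg]; exact s1.h_map _ _
  have hzsD : h (QS.dg zs 1) F = hz := by rw [hzs, s2.qs_dg, cF]; exact s2.h_map _ _
  have hQD' : h Q' F = hQ := by rw [cF]; exact s2.h_map _ _
  have hQuD : h Q (u ⊔ F) = hQu := by rw [← s1.map_sup]; exact s1.h_map _ _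
  have hQuD' : h Q' (u ⊔ F) = hQu := by rw [cX, cF, ← s2.map_sup]; exact s2.h_map _ _
  have hPvD : h P (v ⊔ F) = hPv := by rw [← s1.map_sup]; exact s1.h_map _ _
  have d4 : h (Q ⊔ Q') F ≤ hQ + hQu := by
    rw [h_chain, hQD, ← hQuD']
    have : h Q' (Q ⊔ F) ≤ h Q' (u ⊔ F) := h_anti (sup_le_sup_right uQ _)
    linarith
  have hxD : h (QS.dg (s1.qs (β.x i)) 1) (u ⊔ F) = 1 := by
    rw [s1.qs_dg, ← s1.map_sup, s1.h_map]
    exact h_xi ok i
  have hyD : h (QS.dg (s1.qs (β.y j)) 1) (v ⊔ F) = 1 := by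
    rw [s1.qs_dg, ← s1.map_sup, s1.h_map]
    exact h_yj ok j
  -- the second copy
  set f2 : Unit ⊕ ((Fin g ⊕ (Fin k ⊕ (Unit ⊕ ιq))) ⊕ ((Fin g ⊕ (Fin k ⊕ (Unit ⊕ ιq))) ⊕ (ιf ⊕ {l : Fin k // l ≠ j}))) → QS D :=
    Sum.elim (fun _ => z) (Sum.elim (fun t => s1.qs (β.qf t)) (Sum.elim (fun t => s2.qs (β.qf t))
      (Sum.elim (fun t => s1.qs (β.Fv t)) (fun t => s1.qs (β.yn j t))))) with hf2
  have vf2 : QS.vd f2 1 = QS.dg z 1 ⊔ (Q ⊔ (Q' ⊔ (F ⊔ v))) := by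
    rw [hf2, vd_sum, vd_sum, vd_sum, vd_sum, vd_unit, s1.qs_vd, s2.qs_vd, s1.qs_vd, s1.qs_vd]
    rfl
  obtain ⟨E, π1, π2, com2, ci2⟩ := exists_copy (Pj.id D) f2
  simp only [Pj.id_qs, Pj.id_map] at com2 ci2
  have ez : π1.qs z = π2.qs z := com2 (Sum.inl ())
  have eq1 : ∀ t, π1.qs (s1.qs (β.qf t)) = π2.qs (s1.qs (β.qf t)) := fun t => com2 (Sum.inr (Sum.inl t))
  have eq2 : ∀ t, π1.qs (s2.qs (β.qf t)) = π2.qs (s2.qs (β.qf t)) := fun t => com2 (Sum.inr (Sum.inr (Sum.inl t)))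
  have ef : ∀ t, π1.qs (s1.qs (β.Fv t)) = π2.qs (s1.qs (β.Fv t)) :=
    fun t => com2 (Sum.inr (Sum.inr (Sum.inr (Sum.inl t))))
  have ey : ∀ t, π1.qs (s1.qs (β.yn j t)) = π2.qs (s1.qs (β.yn j t)) :=
    fun t => com2 (Sum.inr (Sum.inr (Sum.inr (Sum.inr t))))
  have eQ : π1.map Q = π2.map Q := by
    rw [hQd, Blk.Q, ← s1.qs_vd]
    exact vd_com eq1 1
  have eQ' : π1.map Q' = π2.map Q' := by
    rw [hQd', Blk.Q, ← s2.qs_vd]
    exact vd_com eq2 1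
  have eF : π1.map F = π2.map F := by
    rw [hFd, Blk.F, ← s1.qs_vd]
    exact vd_com ef 1
  have ev : π1.map v = π2.map v := by
    rw [hvd, ← s1.qs_vd]
    exact vd_com ey 1
  have evf : π1.map (QS.vd f2 1) = π2.map (QS.vd f2 1) := vd_com com2 1
  -- entropies in E
  have g1 : hPv ≤ h P (QS.vd f2 1) := by
    have a1 : h (v ⊔ P) F = h v F + h P (v ⊔ F) := h_chain v P F
    rw [sup_eq_right.mpr vP, hPD, hPvD] at a1
    have a2 : h ((QS.dg z 1 ⊔ (Q ⊔ Q') ⊔ v) ⊔ P) F = h (QS.dg z 1 ⊔ (Q ⊔ Q') ⊔ v) F +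
        h P ((QS.dg z 1 ⊔ (Q ⊔ Q') ⊔ v) ⊔ F) := h_chain _ P F
    have a3 : (QS.dg z 1 ⊔ (Q ⊔ Q') ⊔ v) ⊔ F = QS.vd f2 1 := by
      rw [vf2]
      ac_rfl
    have a4 : hz + hP + hQ + hQu ≤ h ((QS.dg z 1 ⊔ (Q ⊔ Q') ⊔ v) ⊔ P) F := by
      rw [← d3]
      apply h_mono
      refine sup_le (sup_le ?_ (sup_le le_sup_right ?_)) ?_
      · exact ((le_sup_left.trans le_sup_left).trans le_sup_left)
      · exact (((le_sup_left.trans le_sup_right).trans le_sup_left).trans le_sup_left)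
      · exact (((le_sup_right.trans le_sup_right).trans le_sup_left).trans le_sup_left)
    have a5 : h (QS.dg z 1 ⊔ (Q ⊔ Q') ⊔ v) F ≤ hz + (hQ + hQu) + h v F := by
      have b1 := h_sup_le (QS.dg z 1 ⊔ (Q ⊔ Q')) v F
      have b2 := h_sup_le (QS.dg z 1) (Q ⊔ Q') F
      linarith
    rw [a3] at a2
    linarith
  have g2 : hPv ≤ h (π2.map P) (π1.map P ⊔ π1.map (QS.vd f2 1)) := by
    have a1 := ci2 P P
    rw [I_zero_iff_h'] at a1
    rw [a1, evf, π2.h_map]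
    exact g1
  have hT : hz + (hQ + hQu) + (hP + hPv) ≤
      h (QS.dg (π1.qs z) 1 ⊔ ((π1.map Q ⊔ π1.map Q') ⊔ (π1.map P ⊔ π2.map P))) (π1.map F) := by
    have a1 : h (π1.map ((QS.dg z 1 ⊔ (P ⊔ Q)) ⊔ Q') ⊔ π2.map P) (π1.map F) =
        h (π1.map ((QS.dg z 1 ⊔ (P ⊔ Q)) ⊔ Q')) (π1.map F) +
          h (π2.map P) (π1.map ((QS.dg z 1 ⊔ (P ⊔ Q)) ⊔ Q') ⊔ π1.map F) := h_chain _ _ _
    have a2 : π1.map ((QS.dg z 1 ⊔ (P ⊔ Q)) ⊔ Q') ⊔ π1.map F = π1.map P ⊔ π1.map (QS.vd f2 1) := by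
      rw [← π1.map_sup, ← π1.map_sup, vf2]
      congr 1
      apply le_antisymm
      · refine sup_le (sup_le (sup_le ?_ (sup_le le_sup_left ?_)) ?_) ?_
        · exact le_sup_left.trans le_sup_right
        · exact (le_sup_left.trans le_sup_right).trans le_sup_right
        · exact ((le_sup_left.trans le_sup_right).trans le_sup_right).trans le_sup_right
        · exact (((le_sup_left.trans le_sup_right).trans le_sup_right).trans le_sup_right).trans le_sup_right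
      · refine sup_le ?_ (sup_le ?_ (sup_le ?_ (sup_le ?_ (sup_le le_sup_right ?_))))
        · exact ((le_sup_left.trans le_sup_right).trans le_sup_left).trans le_sup_left
        · exact (le_sup_left.trans le_sup_left).trans le_sup_left
        · exact ((le_sup_right.trans le_sup_right).trans le_sup_left).trans le_sup_left
        · exact le_sup_right.trans le_sup_left
        · exact vP.trans (((le_sup_left.trans le_sup_right).trans le_sup_left).trans le_sup_left)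
    rw [a2, π1.h_map, d3] at a1
    have a3 : π1.map ((QS.dg z 1 ⊔ (P ⊔ Q)) ⊔ Q') ⊔ π2.map P =
        QS.dg (π1.qs z) 1 ⊔ ((π1.map Q ⊔ π1.map Q') ⊔ (π1.map P ⊔ π2.map P)) := by
      rw [π1.qs_dg, π1.map_sup, π1.map_sup, π1.map_sup]
      ac_rfl
    rw [a3] at a1
    linarith
  have hPE : h (π1.map P) (π1.map F) = hP := by rw [π1.h_map]; exact hPD
  have hPE' : h (π2.map P) (π1.map F) = hP := by rw [eF, π2.h_map]; exact hPD
  have hQE' : h (π1.map Q') (π1.map F) = hQ := by rw [π1.h_map]; exact hQD'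
  have hPvE : h (π1.map P) (π1.map v ⊔ π1.map F) = hPv := by rw [← π1.map_sup, π1.h_map]; exact hPvD
  have hPvE' : h (π2.map P) (π1.map v ⊔ π1.map F) = hPv := by rw [ev, eF, ← π2.map_sup, π2.h_map]; exact hPvD
  have hQuE : h (π1.map Q) (π1.map u ⊔ π1.map F) = hQu := by rw [← π1.map_sup, π1.h_map]; exact hQuD
  have vPE : π1.map v ≤ π1.map P := π1.map_mono vP
  have vPE' : π1.map v ≤ π2.map P := by rw [ev]; exact π2.map_mono vP
  have uQE' : π1.map u ≤ π1.map Q' := π1.map_mono uQ'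
  have t1 := three (A := QS.dg (π1.qs z) 1) (B := π1.map Q ⊔ π1.map Q') (C := π1.map P ⊔ π2.map P) (F := π1.map F)
    (a := hz) (b := hQ + hQu) (c := hP + hPv)
    (by rw [π1.qs_dg, π1.h_map]; exact hzD.le)
    (by rw [← π1.map_sup, π1.h_map]; exact d4)
    (by
      rw [h_chain, hPE, ← hPvE']
      have : h (π2.map P) (π1.map P ⊔ π1.map F) ≤ h (π2.map P) (π1.map v ⊔ π1.map F) := h_anti (sup_le_sup_right vPE _)
      linarith)
    hT
  obtain ⟨-, -, t1c, -, t1e⟩ := t1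
  -- the base
  set B : E.L := π1.map F ⊔ (π1.map Q' ⊔ π2.map P) with hB
  have hFB : π1.map F ≤ B := le_sup_left
  have hQB : π1.map Q' ≤ B := le_sup_left.trans le_sup_right
  have hPB : π2.map P ≤ B := le_sup_right.trans le_sup_right
  have hzsE : h (QS.dg (π1.qs zs) 1) (π1.map F) = hz := by rw [π1.qs_dg, π1.h_map]; exact hzsD
  have hzsE2 : h (QS.dg (π2.qs zs) 1) (π1.map F) = hz := by rw [π2.qs_dg, eF, π2.h_map]; exact hzsD
  have zE1 : QS.dg (π1.qs z) 1 ≤ QS.dg (π1.qs zs) 1 ⊔ (π1.map P ⊔ (π1.map Q' ⊔ π1.map Q)) := by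
    rw [π1.qs_dg, π1.qs_dg, ← π1.map_sup, ← π1.map_sup, ← π1.map_sup]
    apply π1.map_mono
    refine zle.trans (sup_le (z3le'.trans ?_) ?_)
    · exact sup_le le_sup_left (sup_le (le_sup_left.trans le_sup_right) ((le_sup_left.trans le_sup_right).trans le_sup_right))
    · exact sup_le (le_sup_left.trans le_sup_right) ((le_sup_right.trans le_sup_right).trans le_sup_right)
  have hT2 : hz + hQu + hPv ≤ h (QS.dg (π1.qs zs) 1 ⊔ (π1.map Q ⊔ π1.map P)) B := by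
    have a1 : h ((π1.map Q' ⊔ π2.map P) ⊔ (QS.dg (π1.qs zs) 1 ⊔ (π1.map Q ⊔ π1.map P))) (π1.map F) =
        h (π1.map Q' ⊔ π2.map P) (π1.map F) +
          h (QS.dg (π1.qs zs) 1 ⊔ (π1.map Q ⊔ π1.map P)) ((π1.map Q' ⊔ π2.map P) ⊔ π1.map F) := h_chain _ _ _
    rw [sup_comm (π1.map Q' ⊔ π2.map P) (π1.map F), ← hB] at a1
    have a2 : h (QS.dg (π1.qs z) 1 ⊔ ((π1.map Q ⊔ π1.map Q') ⊔ (π1.map P ⊔ π2.map P))) (π1.map F) ≤
        h ((π1.map Q' ⊔ π2.map P) ⊔ (QS.dg (π1.qs zs) 1 ⊔ (π1.map Q ⊔ π1.map P))) (π1.map F) := by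
      apply h_mono
      have b1 : π1.map P ≤ (π1.map Q' ⊔ π2.map P) ⊔ (QS.dg (π1.qs zs) 1 ⊔ (π1.map Q ⊔ π1.map P)) :=
        (le_sup_right.trans le_sup_right).trans le_sup_right
      have b2 : π1.map Q ≤ (π1.map Q' ⊔ π2.map P) ⊔ (QS.dg (π1.qs zs) 1 ⊔ (π1.map Q ⊔ π1.map P)) :=
        (le_sup_left.trans le_sup_right).trans le_sup_right
      have b3 : π1.map Q' ≤ (π1.map Q' ⊔ π2.map P) ⊔ (QS.dg (π1.qs zs) 1 ⊔ (π1.map Q ⊔ π1.map P)) :=
        le_sup_left.trans le_sup_left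
      have b4 : π2.map P ≤ (π1.map Q' ⊔ π2.map P) ⊔ (QS.dg (π1.qs zs) 1 ⊔ (π1.map Q ⊔ π1.map P)) :=
        le_sup_right.trans le_sup_left
      have b5 : QS.dg (π1.qs zs) 1 ≤ (π1.map Q' ⊔ π2.map P) ⊔ (QS.dg (π1.qs zs) 1 ⊔ (π1.map Q ⊔ π1.map P)) :=
        le_sup_left.trans le_sup_right
      exact sup_le (zE1.trans (sup_le b5 (sup_le b1 (sup_le b3 b2)))) (sup_le (sup_le b2 b3) (sup_le b1 b4))
    have a3 := h_sup_le (π1.map Q') (π2.map P) (π1.map F)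
    rw [hQE', hPE'] at a3
    linarith
  have t2 := three (A := QS.dg (π1.qs zs) 1) (B := π1.map Q) (C := π1.map P) (F := B)
    (a := hz) (b := hQu) (c := hPv)
    ((h_anti hFB).trans hzsE.le)
    (by
      rw [← hQuE]
      exact h_anti (sup_le (uQE'.trans hQB) hFB))
    (by
      rw [← hPvE]
      exact h_anti (sup_le (vPE'.trans hPB) hFB))
    hT2
  obtain ⟨-, t2b, t2c, t2d, t2e⟩ := t2
  -- the difference
  set X : Fin 2 → QS E := ![π1.qs (s1.qs (β.x i) - s2.qs (β.x i)), π1.qs (s1.qs (β.A j) - s2.qs (β.A j))] with hX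
  set Y : Fin 2 → QS E := ![π2.qs (s1.qs (β.y j)) - π1.qs (s1.qs (β.y j)),
    π2.qs (s1.qs (β.C i)) - π1.qs (s1.qs (β.C i))] with hY
  have key : π2.qs zs = π1.qs zs + (X 0 * Y 1 - X 1 * Y 0) := by
    have a1 : zs = z + (s1.qs (β.x i) - s2.qs (β.x i)) * s1.qs (β.C i) -
        ∑ l, (s1.qs (β.A l) - s2.qs (β.A l)) * s1.qs (β.y l) + (s1.qs β.b - s2.qs β.b) := by
      have b1 : s1.qs β.z3 = z + Yv (fun l => s1.qs (β.x l)) (fun l => s1.qs (β.C l)) (fun l => s1.qs (β.A l))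
          (fun l => s1.qs (β.y l)) (s1.qs β.a) (s1.qs β.b) := by
        rw [← Yv_map, ← map_add]; rfl
      have b2 : s2.qs β.z3 = zs + Yv (fun l => s2.qs (β.x l)) (fun l => s2.qs (β.C l)) (fun l => s2.qs (β.A l))
          (fun l => s2.qs (β.y l)) (s2.qs β.a) (s2.qs β.b) := by
        rw [← Yv_map, ← map_add]; rfl
      rw [cz, b2] at b1
      have b3 : ∑ l, s1.qs (β.x l) * s1.qs (β.C l) - ∑ l, s2.qs (β.x l) * s2.qs (β.C l) =
          (s1.qs (β.x i) - s2.qs (β.x i)) * s1.qs (β.C i) := by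
        rw [← Finset.sum_sub_distrib, Finset.sum_eq_single i]
        · rw [← cC i]; ring
        · intro l _ hl
          have := cx ⟨l, hl⟩
          show s1.qs (β.x l) * s1.qs (β.C l) - s2.qs (β.x l) * s2.qs (β.C l) = 0
          rw [← cC l, show s1.qs (β.x l) = s2.qs (β.x l) from this]; ring
        · intro hc; exact absurd (Finset.mem_univ i) hc
      have b4 : ∑ l, s1.qs (β.A l) * s1.qs (β.y l) - ∑ l, s2.qs (β.A l) * s2.qs (β.y l) =
          ∑ l, (s1.qs (β.A l) - s2.qs (β.A l)) * s1.qs (β.y l) := by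
        rw [← Finset.sum_sub_distrib]
        apply Finset.sum_congr rfl
        intro l _
        rw [← cy l]; ring
      unfold Yv at b1
      rw [← b3, ← b4]
      rw [← ca] at b1
      linear_combination b1
    have a2 : ∑ l, (π1.qs (s1.qs (β.A l)) - π1.qs (s2.qs (β.A l))) * π2.qs (s1.qs (β.y l)) -
        ∑ l, (π1.qs (s1.qs (β.A l)) - π1.qs (s2.qs (β.A l))) * π1.qs (s1.qs (β.y l)) =
        (π1.qs (s1.qs (β.A j)) - π1.qs (s2.qs (β.A j))) * (π2.qs (s1.qs (β.y j)) - π1.qs (s1.qs (β.y j))) := by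
      rw [← Finset.sum_sub_distrib, Finset.sum_eq_single j]
      · ring
      · intro l _ hl
        have h5 := ey ⟨l, hl⟩
        rw [show π1.qs (s1.qs (β.y l)) = π2.qs (s1.qs (β.y l)) from h5]; ring
      · intro hc; exact absurd (Finset.mem_univ j) hc
    have c1 : ∀ l, π2.qs (s1.qs (β.A l)) = π1.qs (s1.qs (β.A l)) := fun l => (eq1 (Sum.inr (Sum.inl l))).symm
    have c2 : ∀ l, π2.qs (s2.qs (β.A l)) = π1.qs (s2.qs (β.A l)) := fun l => (eq2 (Sum.inr (Sum.inl l))).symm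
    have c3 : ∀ l, π2.qs (s1.qs (β.x l)) = π1.qs (s1.qs (β.x l)) := fun l => (eq1 (Sum.inl l)).symm
    have c4 : ∀ l, π2.qs (s2.qs (β.x l)) = π1.qs (s2.qs (β.x l)) := fun l => (eq2 (Sum.inl l)).symm
    have c5 : π2.qs (s1.qs β.b) = π1.qs (s1.qs β.b) := (eq1 (Sum.inr (Sum.inr (Sum.inl ())))).symm
    have c6 : π2.qs (s2.qs β.b) = π1.qs (s2.qs β.b) := (eq2 (Sum.inr (Sum.inr (Sum.inl ())))).symm
    rw [a1]
    simp only [map_add, map_sub, map_mul, map_sum, hX, hY, Matrix.cons_val_zero, Matrix.cons_val_one,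
      c1, c2, c3, c4, c5, c6, ez]
    linear_combination -a2
  have hX0 : X 0 = π1.qs (s1.qs (β.x i)) - π1.qs (s2.qs (β.x i)) := map_sub _ _ _
  have hX1 : X 1 = π1.qs (s1.qs (β.A j)) - π1.qs (s2.qs (β.A j)) := map_sub _ _ _
  have hY0 : Y 0 = π2.qs (s1.qs (β.y j)) - π1.qs (s1.qs (β.y j)) := rfl
  have hY1 : Y 1 = π2.qs (s1.qs (β.C i)) - π1.qs (s1.qs (β.C i)) := rfl
  have lx1 : ∀ l, QS.dg (π1.qs (s1.qs (β.x l))) 1 ≤ π1.map Q := by
    intro l; rw [π1.qs_dg, s1.qs_dg]; exact π1.map_mono (s1.map_mono (β.x_le l))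
  have lx2 : ∀ l, QS.dg (π1.qs (s2.qs (β.x l))) 1 ≤ π1.map Q' := by
    intro l; rw [π1.qs_dg, s2.qs_dg]; exact π1.map_mono (s2.map_mono (β.x_le l))
  have lA1 : ∀ l, QS.dg (π1.qs (s1.qs (β.A l))) 1 ≤ π1.map Q := by
    intro l; rw [π1.qs_dg, s1.qs_dg]; exact π1.map_mono (s1.map_mono (β.A_le l))
  have lA2 : ∀ l, QS.dg (π1.qs (s2.qs (β.A l))) 1 ≤ π1.map Q' := by
    intro l; rw [π1.qs_dg, s2.qs_dg]; exact π1.map_mono (s2.map_mono (β.A_le l))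
  have ly1 : ∀ l, QS.dg (π1.qs (s1.qs (β.y l))) 1 ≤ π1.map P := by
    intro l; rw [π1.qs_dg, s1.qs_dg]; exact π1.map_mono (s1.map_mono (β.y_le l))
  have ly2 : ∀ l, QS.dg (π2.qs (s1.qs (β.y l))) 1 ≤ π2.map P := by
    intro l; rw [π2.qs_dg, s1.qs_dg]; exact π2.map_mono (s1.map_mono (β.y_le l))
  have lC1 : ∀ l, QS.dg (π1.qs (s1.qs (β.C l))) 1 ≤ π1.map P := by
    intro l; rw [π1.qs_dg, s1.qs_dg]; exact π1.map_mono (s1.map_mono (β.C_le l))
  have lC2 : ∀ l, QS.dg (π2.qs (s1.qs (β.C l))) 1 ≤ π2.map P := by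
    intro l; rw [π2.qs_dg, s1.qs_dg]; exact π2.map_mono (s1.map_mono (β.C_le l))
  have vX : QS.vd X 1 ≤ π1.map Q ⊔ B := by
    rw [QS.vd_le]
    intro t
    fin_cases t
    · show QS.dg (X 0) 1 ≤ _
      rw [hX0]
      exact (QS.dg_sub_le _ _ le_rfl).trans (sup_le ((lx1 i).trans le_sup_left) (((lx2 i).trans hQB).trans le_sup_right))
    · show QS.dg (X 1) 1 ≤ _
      rw [hX1]
      exact (QS.dg_sub_le _ _ le_rfl).trans (sup_le ((lA1 j).trans le_sup_left) (((lA2 j).trans hQB).trans le_sup_right))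
  have vY : QS.vd Y 1 ≤ π1.map P ⊔ B := by
    rw [QS.vd_le]
    intro t
    fin_cases t
    · show QS.dg (Y 0) 1 ≤ _
      rw [hY0]
      exact (QS.dg_sub_le _ _ le_rfl).trans (sup_le (((ly2 j).trans hPB).trans le_sup_right) ((ly1 j).trans le_sup_left))
    · show QS.dg (Y 1) 1 ≤ _
      rw [hY1]
      exact (QS.dg_sub_le _ _ le_rfl).trans (sup_le (((lC2 i).trans hPB).trans le_sup_right) ((lC1 i).trans le_sup_left))
  have vXY : QS.vd X 1 ⊔ QS.vd Y 1 ≤ (π1.map Q ⊔ π1.map P) ⊔ B :=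
    sup_le (vX.trans (sup_le_sup_right le_sup_left _)) (vY.trans (sup_le_sup_right le_sup_right _))
  -- the two variables are independent of the block
  have f1 : I (QS.dg (π1.qs zs) 1) (QS.vd X 1 ⊔ QS.vd Y 1) B = 0 := I_zero_mono t2d le_sup_left vXY
  have f2' : I (QS.dg (π2.qs zs) 1) (π1.map Q ⊔ π1.map P) B = 0 := by
    apply le_antisymm _ (I_nonneg _ _ _)
    rw [I_h3]
    have a1 : h (QS.dg (π2.qs zs) 1) B ≤ hz := (h_anti hFB).trans hzsE2.le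
    have a2 : h (π1.map Q ⊔ π1.map P) B ≤ hQu + hPv := by
      rw [← t2b, ← t2c]
      exact h_sup_le _ _ _
    have a3 : h (QS.dg (π1.qs zs) 1 ⊔ (π1.map Q ⊔ π1.map P)) B ≤ h (QS.dg (π2.qs zs) 1 ⊔ (π1.map Q ⊔ π1.map P)) B := by
      have b1 : h (QS.dg (π2.qs zs) 1 ⊔ (π1.map Q ⊔ π1.map P)) B =
          h ((QS.dg (π2.qs zs) 1 ⊔ (π1.map Q ⊔ π1.map P)) ⊔ B) B := by
        rw [h_sup_right_of_le le_rfl]
      rw [b1]
      apply h_mono
      refine sup_le ?_ (le_sup_right.trans le_sup_left)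
      have b2 : π1.qs zs = π2.qs zs - (X 0 * Y 1 - X 1 * Y 0) := by rw [key]; ring
      rw [b2]
      have m0 : ∀ t, QS.dg (X t) 1 ≤ (QS.dg (π2.qs zs) 1 ⊔ (π1.map Q ⊔ π1.map P)) ⊔ B := fun t =>
        ((QS.dg_le_vd X 1 t).trans vX).trans (sup_le_sup_right (le_sup_left.trans le_sup_right) _)
      have m1 : ∀ t, QS.dg (Y t) 1 ≤ (QS.dg (π2.qs zs) 1 ⊔ (π1.map Q ⊔ π1.map P)) ⊔ B := fun t =>
        ((QS.dg_le_vd Y 1 t).trans vY).trans (sup_le_sup_right (le_sup_right.trans le_sup_right) _)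
      exact (QS.Kn E 1 le_rfl _).sub_mem (QS.mem_Kn.mpr (le_sup_left.trans le_sup_left))
        ((QS.Kn E 1 le_rfl _).sub_mem ((QS.Kn E 1 le_rfl _).mul_mem (QS.mem_Kn.mpr (m0 0)) (QS.mem_Kn.mpr (m1 1)))
          ((QS.Kn E 1 le_rfl _).mul_mem (QS.mem_Kn.mpr (m0 1)) (QS.mem_Kn.mpr (m1 0))))
    linarith
  have f2 : I (QS.dg (π1.qs zs + (X 0 * Y 1 - X 1 * Y 0)) 1) (QS.vd X 1 ⊔ QS.vd Y 1) B = 0 := by
    rw [← key]
    exact I_zero_mono f2' le_sup_left vXY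
  have f3 : I (QS.vd X 1) (QS.vd Y 1) B = 0 := I_zero_mono t2e vX vY
  -- real
  have hx1 : h (QS.dg (π1.qs (s1.qs (β.x i))) 1) B = 1 := by
    apply le_antisymm (QS.h_dg_le_one _ _)
    have a1 : h (QS.dg (π1.qs (s1.qs (β.x i))) 1 ⊔ π1.map Q) B =
        h (QS.dg (π1.qs (s1.qs (β.x i))) 1) B + h (π1.map Q) (QS.dg (π1.qs (s1.qs (β.x i))) 1 ⊔ B) := h_chain _ _ _
    have a2 : h (QS.dg (π1.qs (s1.qs (β.x i))) 1 ⊔ π1.map Q) (π1.map u ⊔ π1.map F) =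
        h (QS.dg (π1.qs (s1.qs (β.x i))) 1) (π1.map u ⊔ π1.map F) +
          h (π1.map Q) (QS.dg (π1.qs (s1.qs (β.x i))) 1 ⊔ (π1.map u ⊔ π1.map F)) := h_chain _ _ _
    rw [sup_eq_right.mpr (lx1 i)] at a1 a2
    have a3 : h (QS.dg (π1.qs (s1.qs (β.x i))) 1) (π1.map u ⊔ π1.map F) = 1 := by
      rw [π1.qs_dg, ← π1.map_sup, π1.h_map]
      exact hxD
    have a4 : h (π1.map Q) (QS.dg (π1.qs (s1.qs (β.x i))) 1 ⊔ B) ≤
        h (π1.map Q) (QS.dg (π1.qs (s1.qs (β.x i))) 1 ⊔ (π1.map u ⊔ π1.map F)) :=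
      h_anti (sup_le_sup_left (sup_le (uQE'.trans hQB) hFB) _)
    rw [t2b] at a1
    rw [hQuE, a3] at a2
    linarith
  have hy1 : h (QS.dg (π1.qs (s1.qs (β.y j))) 1) B = 1 := by
    apply le_antisymm (QS.h_dg_le_one _ _)
    have a1 : h (QS.dg (π1.qs (s1.qs (β.y j))) 1 ⊔ π1.map P) B =
        h (QS.dg (π1.qs (s1.qs (β.y j))) 1) B + h (π1.map P) (QS.dg (π1.qs (s1.qs (β.y j))) 1 ⊔ B) := h_chain _ _ _
    have a2 : h (QS.dg (π1.qs (s1.qs (β.y j))) 1 ⊔ π1.map P) (π1.map v ⊔ π1.map F) =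
        h (QS.dg (π1.qs (s1.qs (β.y j))) 1) (π1.map v ⊔ π1.map F) +
          h (π1.map P) (QS.dg (π1.qs (s1.qs (β.y j))) 1 ⊔ (π1.map v ⊔ π1.map F)) := h_chain _ _ _
    rw [sup_eq_right.mpr (ly1 j)] at a1 a2
    have a3 : h (QS.dg (π1.qs (s1.qs (β.y j))) 1) (π1.map v ⊔ π1.map F) = 1 := by
      rw [π1.qs_dg, ← π1.map_sup, π1.h_map]
      exact hyD
    have a4 : h (π1.map P) (QS.dg (π1.qs (s1.qs (β.y j))) 1 ⊔ B) ≤
        h (π1.map P) (QS.dg (π1.qs (s1.qs (β.y j))) 1 ⊔ (π1.map v ⊔ π1.map F)) :=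
      h_anti (sup_le_sup_left (sup_le (vPE'.trans hPB) hFB) _)
    rw [t2c] at a1
    rw [hPvE, a3] at a2
    linarith
  have f4 : h (QS.dg (X 0) 1) B = 1 := by
    apply le_antisymm (QS.h_dg_le_one _ _)
    have a1 : h (QS.dg (π1.qs (s1.qs (β.x i))) 1) B ≤ h (QS.dg (X 0) 1 ⊔ B) B := by
      apply h_mono
      have b1 : π1.qs (s1.qs (β.x i)) = X 0 + π1.qs (s2.qs (β.x i)) := by rw [hX0]; ring
      rw [b1]
      exact (QS.dg_add_le _ _ le_rfl).trans (sup_le_sup_left ((lx2 i).trans hQB) _)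
    rw [h_sup_right_of_le le_rfl] at a1
    exact hx1.ge.trans a1
  have f5 : h (QS.dg (Y 0) 1) B = 1 := by
    apply le_antisymm (QS.h_dg_le_one _ _)
    have a1 : h (QS.dg (π1.qs (s1.qs (β.y j))) 1) B ≤ h (QS.dg (Y 0) 1 ⊔ B) B := by
      apply h_mono
      have b1 : π1.qs (s1.qs (β.y j)) = π2.qs (s1.qs (β.y j)) - Y 0 := by rw [hY0]; ring
      rw [b1]
      exact (QS.dg_sub_le _ _ le_rfl).trans (sup_le (((ly2 j).trans hPB).trans le_sup_right) le_sup_left)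
    rw [h_sup_right_of_le le_rfl] at a1
    exact hy1.ge.trans a1
  have fin := ok.un E (π1.comp s2) B (by rw [Pj.comp_map, ← cF]; exact hFB) X Y
  rw [Pj.comp_qs] at fin
  have fin' := fin f1 f2 f3 f4 f5
  refine ⟨?_, E, π1, π2, fin', ?_, eF, ?_, ?_⟩
  · apply QS.isUnit_sub
    apply le_antisymm (QS.h_dg_le_one _ _)
    have a1 : h (QS.dg (π1.qs (s1.qs (β.x i))) 1) B ≤
        h (QS.dg (π1.qs (s1.qs (β.x i))) 1) (QS.dg (π1.qs (s2.qs (β.x i))) 1) := h_anti ((lx2 i).trans hQB)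
    rw [hx1, π1.qs_dg, π1.qs_dg, π1.h_map] at a1
    exact a1
  · rw [← neg_sub]
    apply IsUnit.neg
    apply QS.isUnit_sub
    apply le_antisymm (QS.h_dg_le_one _ _)
    exact hy1.ge.trans (h_anti ((ly2 j).trans hPB))
  · rw [π1.map_sup]
    exact t1e
  · show I (π1.map P) (π2.map P) (π1.map (s1.map (QS.vd (β.yn j) 1 ⊔ β.F))) = 0
    rw [s1.map_sup, π1.map_sup]
    show I (π1.map P) (π2.map P) (π1.map v ⊔ π1.map F) = 0
    apply le_antisymm _ (I_nonneg _ _ _)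
    rw [I_eq', hPvE']
    have a1 : π1.map P ⊔ (π1.map v ⊔ π1.map F) = π1.map P ⊔ π1.map F := by
      rw [← sup_assoc, sup_eq_left.mpr vPE]
    rw [a1]
    have a2 := t1c
    rw [h_chain, hPE] at a2
    linarith

end Blk

end

end Pool.Agent.Helper61.EC
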