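import Pool.Agent.Helper61.EC.WecN

/-! Bridge from the finite Theorem W to the exact calculus: the theorem. -/

namespace Pool.Agent.Helper61.EC

open Finset Filter Topology Pool.Agent.Helper69.RK Pool.Agent.Helper31.EC Pool.Agent.Helper92.W Pool.Agent.Helper46.WF
  Pool.Agent.Helper92.WA

noncomputable section

open Sp

theorem ker_fin1 {Ω : Type} (x : Ω → ℤ) : Setoid.ker (fun ω (_ : Fin 1) => x ω) = Setoid.ker x := by
  ext ω ω'
  constructor
  · intro hh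
    exact congrFun hh 0
  · intro hh
    have h1 : x ω = x ω' := hh
    show (fun _ : Fin 1 => x ω) = fun _ => x ω'
    rw [h1]

theorem fl_abs_le (l : ℕ) {x C : ℝ} (hx : |x| ≤ C) : |((fl l x : ℤ) : ℝ)| ≤ 2 ^ l * C + 1 := by
  have h1 := Int.floor_le ((2 : ℝ) ^ l * x)
  have h2 := Int.lt_floor_add_one ((2 : ℝ) ^ l * x)
  have h3 := abs_le.mp hx
  have h4 : (0 : ℝ) < 2 ^ l := by positivity
  have h5 := mul_le_mul_of_nonneg_left h3.1 h4.le
  have h6 := mul_le_mul_of_nonneg_left h3.2 h4.le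
  unfold fl
  rw [abs_le]
  constructor <;> linarith

theorem two_pow_lev (S : Sp) (r : ℝ) (k : ℕ) : (2 : ℝ) ^ (lev S r k) ≤ 2 ^ (max r 0 * (S.F k).n) := by
  rw [← Real.rpow_natCast]
  apply Real.rpow_le_rpow_of_exponent_le (by norm_num)
  have hn := (S.F k).pos
  rcases le_total 0 r with h | h
  · rw [max_eq_left h]
    exact lev_le S h k
  · have h1 : lev S r k = 0 := by
      unfold lev
      exact Nat.floor_of_nonpos (mul_nonpos_of_nonpos_of_nonneg h hn.le)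
    rw [h1, max_eq_right h]
    simp

theorem bdd_fl (S : Sp) (g : ∀ k, (S.F k).Ω → ℝ) (C : ℝ) (hC : ∀ k ω, |g k ω| ≤ C) (r : ℝ) :
    Bdd (fun k ω => fl (lev S r k) (g k ω)) := by
  have h1 : Bdd (fun k ω (_ : Fin 1) => fl (lev S r k) (g k ω)) := by
    apply Bdd_int _ (fun k => 2 ^ (max r 0 * (S.F k).n) * |C| + 1) (max r 0 + 1)
    · refine Eventually.of_forall fun k ω _ _ => ?_
      refine (fl_abs_le _ ((hC k ω).trans (le_abs_self C))).trans ?_
      have := mul_le_mul_of_nonneg_right (two_pow_lev S r k) (abs_nonneg C)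
      linarith
    · filter_upwards [S.eventually_le_two_pow (2 * |C| + 3)] with k hk
      have e0 : (1 : ℝ) ≤ 2 ^ (max r 0 * (S.F k).n) := by
        apply Real.one_le_rpow (by norm_num)
        have := (S.F k).pos
        positivity
      have e1 : (2 : ℝ) ^ ((max r 0 + 1) * (S.F k).n) = 2 ^ (max r 0 * (S.F k).n) * 2 ^ ((S.F k).n) := by
        rw [← Real.rpow_add (by norm_num : (0 : ℝ) < 2)]
        congr 1; ring
      rw [e1]
      have e2 : (2 : ℝ) ^ (max r 0 * (S.F k).n) * (2 * |C| + 3) ≤ 2 ^ (max r 0 * (S.F k).n) * 2 ^ ((S.F k).n) :=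
        mul_le_mul_of_nonneg_left hk (by positivity)
      nlinarith
  exact h1.of_fun (Eventually.of_forall fun k ω ω' _ _ _ hh => congrFun hh 0)

/-- integer cells and digits -/
theorem io_fl (S : Sp) (f : TR S) (C : ℝ) (hC : ∀ k ω, |TR.ev f k ω| ≤ C) {r : ℝ} (h0 : 0 ≤ r) (h1 : r ≤ 1) :
    io (fun k ω => fl (lev S r k) (TR.ev f k ω)) = QS.dg (QS.mk f) r := by
  have hb := bdd_fl S (TR.ev f) C hC r
  rw [QS.dg_mk _ h1]
  have hd : TR.dg f r = io ((TR.vec fun _ : Fin 1 => f).cellv r) := rfl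
  have hcb : Bdd ((TR.vec fun _ : Fin 1 => f).cellv r) := (TR.vec fun _ : Fin 1 => f).bdd r
  apply le_antisymm
  · rw [hd, io_le_io hb hcb]
    refine squeeze_zero' (Eventually.of_forall fun k => rt_nonneg _ _ k) (Eventually.of_forall fun k => ?_)
      (S.div_n_tendsto (1 * Real.logb 2 (2 + 1)))
    have hn := (S.F k).pos
    show (S.F k).e (Setoid.ker fun ω => fl (lev S r k) (TR.ev f k ω))
      (Setoid.ker ((TR.vec fun _ : Fin 1 => f).cellv r k) ⊓ (S.F k).Z) / (S.F k).n ≤ _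
    apply div_le_div_of_nonneg_right _ hn.le
    rw [← ker_fin1]
    have h2 := (S.F k).e_int_le (m := 1) (fun ω (_ : Fin 1) => fl (lev S r k) (TR.ev f k ω))
      (Setoid.ker ((TR.vec fun _ : Fin 1 => f).cellv r k) ⊓ (S.F k).Z) 2 (by norm_num) (by
        intro ω ω' _ _ h3 _
        have h4 : |TR.ev f k ω - TR.ev f k ω'| ≤ S.dl r k :=
          (TR.vec fun _ : Fin 1 => f).cellv_close r k ω ω' h3.1 0
        have h5 : |(2 : ℝ) ^ (lev S r k) * TR.ev f k ω - 2 ^ (lev S r k) * TR.ev f k ω'| ≤ 1 := by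
          rw [← mul_sub, abs_mul, abs_of_pos (by positivity : (0 : ℝ) < 2 ^ (lev S r k))]
          calc (2 : ℝ) ^ (lev S r k) * |TR.ev f k ω - TR.ev f k ω'| ≤ 2 ^ (r * (S.F k).n) * S.dl r k := by
                apply mul_le_mul _ h4 (abs_nonneg _) (by positivity)
                have := two_pow_lev S r k
                rwa [max_eq_left h0] at this
            _ = 1 := by
                unfold Sp.dl
                rw [← Real.rpow_add (by norm_num : (0 : ℝ) < 2)]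
                simp
        have h6 := Int.floor_le ((2 : ℝ) ^ (lev S r k) * TR.ev f k ω)
        have h7 := Int.lt_floor_add_one ((2 : ℝ) ^ (lev S r k) * TR.ev f k ω)
        have h8 := Int.floor_le ((2 : ℝ) ^ (lev S r k) * TR.ev f k ω')
        have h9 := Int.lt_floor_add_one ((2 : ℝ) ^ (lev S r k) * TR.ev f k ω')
        rw [abs_le] at h5
        show |((⌊(2 : ℝ) ^ (lev S r k) * TR.ev f k ω⌋ : ℤ) : ℝ) - ⌊(2 : ℝ) ^ (lev S r k) * TR.ev f k ω'⌋| ≤ 2
        rw [abs_le]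
        constructor <;> linarith [h5.1, h5.2])
    simpa using h2
  · show (TR.vec fun _ : Fin 1 => f).dg r ≤ _
    apply VV.dg_le_io _ r hb (fun _ _ => True) Typ_true (fun _ => 2) (S.Sub_const (by norm_num))
    refine Eventually.of_forall fun k ω ω' _ _ _ _ _ hh i => ?_
    show |TR.ev f k ω - TR.ev f k ω'| ≤ 2 * S.dl r k
    have h2 : (2 : ℝ) ^ (lev S r k) * |TR.ev f k ω - TR.ev f k ω'| ≤ 1 := by
      have h6 := Int.floor_le ((2 : ℝ) ^ (lev S r k) * TR.ev f k ω)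
      have h7 := Int.lt_floor_add_one ((2 : ℝ) ^ (lev S r k) * TR.ev f k ω)
      have h8 := Int.floor_le ((2 : ℝ) ^ (lev S r k) * TR.ev f k ω')
      have h9 := Int.lt_floor_add_one ((2 : ℝ) ^ (lev S r k) * TR.ev f k ω')
      have h10 : ⌊(2 : ℝ) ^ (lev S r k) * TR.ev f k ω⌋ = ⌊(2 : ℝ) ^ (lev S r k) * TR.ev f k ω'⌋ := hh
      rw [h10] at h6 h7
      have h11 : |(2 : ℝ) ^ (lev S r k) * (TR.ev f k ω - TR.ev f k ω')| ≤ 1 := by
        rw [mul_sub, abs_le]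
        constructor <;> linarith
      rwa [abs_mul, abs_of_pos (by positivity : (0 : ℝ) < 2 ^ (lev S r k))] at h11
    have h3 : (1 : ℝ) ≤ 2 ^ (lev S r k) * (2 * S.dl r k) := by
      have h4 : (2 : ℝ) ^ (lev S r k) * (2 * S.dl r k) = 2 ^ ((lev S r k : ℝ) + 1 - r * (S.F k).n) := by
        unfold Sp.dl
        rw [Real.rpow_sub (by norm_num), Real.rpow_add (by norm_num), Real.rpow_natCast, Real.rpow_one,
          Real.rpow_neg (by norm_num)]
        ring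
      rw [h4]
      apply Real.one_le_rpow (by norm_num)
      have := lt_lev S r k
      linarith
    have h5 : (0 : ℝ) < 2 ^ (lev S r k) := by positivity
    nlinarith

/-- rounding -/
def rd (N : ℕ) (x : ℝ) : ℝ := ((fl N x : ℤ) : ℝ) / 2 ^ N

theorem fl_rd (N : ℕ) (x : ℝ) : fl N (rd N x) = fl N x := by
  have h1 : (2 : ℝ) ^ N * rd N x = ((fl N x : ℤ) : ℝ) := by
    unfold rd
    field_simp
  show ⌊(2 : ℝ) ^ N * rd N x⌋ = _
  rw [h1, Int.floor_intCast]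

theorem rd_close (N : ℕ) (x : ℝ) : |rd N x - x| ≤ 1 / 2 ^ N := by
  have h0 : (0 : ℝ) < 2 ^ N := by positivity
  have h1 := Int.floor_le ((2 : ℝ) ^ N * x)
  have h2 := Int.lt_floor_add_one ((2 : ℝ) ^ N * x)
  have h3 : rd N x - x = (((fl N x : ℤ) : ℝ) - 2 ^ N * x) / 2 ^ N := by
    unfold rd
    field_simp
  rw [h3, abs_div, abs_of_pos h0]
  apply div_le_div_of_nonneg_right _ h0.le
  unfold fl
  rw [abs_le]
  constructor <;> linarith

theorem rd_le_one (N : ℕ) {x : ℝ} (hx : |x| ≤ 1) : |rd N x| ≤ 1 := by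
  have h0 : (0 : ℝ) < 2 ^ N := by positivity
  have hx' := abs_le.mp hx
  have h1 : -(2 : ℤ) ^ N ≤ fl N x := by
    apply Int.le_floor.mpr
    push_cast
    nlinarith
  have h2 : ((fl N x : ℤ) : ℝ) ≤ 2 ^ N := by
    refine (Int.floor_le ((2 : ℝ) ^ N * x)).trans ?_
    nlinarith
  have h3 : -(2 : ℝ) ^ N ≤ ((fl N x : ℤ) : ℝ) := by exact_mod_cast h1
  unfold rd
  rw [abs_div, abs_of_pos h0, div_le_one h0, abs_le]
  exact ⟨h3, h2⟩

variable {S : Sp}

/-- a constant tame function -/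
def cst (S : Sp) (K : ℕ → ℝ) (hK : ∃ L, S.Sub L ∧ ∀ᶠ k in UF, |K k| ≤ L k) : TR S :=
  ⟨fun k _ => K k, by
    obtain ⟨L, hL, h⟩ := hK
    exact ⟨L, hL, h.mono fun k hk ω _ => hk⟩⟩

theorem cst_dg (K : ℕ → ℝ) (hK) {r : ℝ} (hr : r ≤ 1) : QS.dg (QS.mk (cst S K hK)) r = ⊥ := by
  rw [QS.dg_mk _ hr]
  exact TR.const_dg _ (Eventually.of_forall fun k ω ω' => rfl) r

/-- normalisation of finitely many functions by a common scalar -/
theorem norm_exists {ι : Type} [Fintype ι] (f : ι → QS S) :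
    ∃ u v : TR S, (∀ r ≤ 1, QS.dg (QS.mk u) r = ⊥) ∧ (∀ r ≤ 1, QS.dg (QS.mk v) r = ⊥) ∧
      QS.mk v * QS.mk u = 1 ∧ (∀ k ω, |TR.ev u k ω| ≤ 1 / 4) ∧
      ∃ g : ι → TR S, (∀ i k ω, |TR.ev (g i) k ω| ≤ 1 / 4) ∧ ∀ i, QS.mk (g i) = QS.mk u * f i := by
  classical
  have h1 : ∀ i, ∃ K : ℕ → ℝ, S.Sub K ∧ ∀ᶠ k in UF, ∀ ω, (S.F k).μ ω ≠ 0 → |TR.ev (QS.rep (f i)) k ω| ≤ K k :=
    fun i => (QS.rep (f i)).2
  choose K hK hK' using h1
  set L : ℕ → ℝ := fun k => ∑ i, |K i k| with hL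
  have hLS : S.Sub L := by
    have h2 : ∀ s : Finset ι, S.Sub (fun k => ∑ i ∈ s, |K i k|) := by
      intro s
      induction s using Finset.induction_on with
      | empty => simpa using S.Sub_const (le_refl (0 : ℝ))
      | insert a s ha ih =>
        have h3 : (fun k => ∑ i ∈ insert a s, |K i k|) = fun k => |K a k| + ∑ i ∈ s, |K i k| := by
          funext k; rw [Finset.sum_insert ha]
        rw [h3]
        refine Sub.add ?_ ih
        refine (hK a).mono (Eventually.of_forall fun k => abs_nonneg _) ?_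
        filter_upwards [(hK a).1] with k hk
        rw [abs_of_nonneg hk]
    exact h2 Finset.univ
  have hL0 : ∀ k, 0 ≤ L k := fun k => Finset.sum_nonneg fun i _ => abs_nonneg _
  have hu : ∀ k, |1 / (4 * (L k + 1))| ≤ 1 / 4 := by
    intro k
    have := hL0 k
    rw [abs_of_nonneg (by positivity)]
    apply one_div_le_one_div_of_le (by norm_num)
    linarith
  set u : TR S := cst S (fun k => 1 / (4 * (L k + 1)))
    ⟨fun _ => 1 / 4, S.Sub_const (by norm_num), Eventually.of_forall hu⟩ with hud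
  set v : TR S := cst S (fun k => 4 * (L k + 1))
    ⟨fun k => 4 * (L k + 1), (S.Sub_const (by norm_num : (0 : ℝ) ≤ 4)).mul (hLS.add (S.Sub_const zero_le_one)),
      Eventually.of_forall fun k => by
        have := hL0 k
        rw [abs_of_nonneg (by positivity)]⟩ with hvd
  refine ⟨u, v, fun r hr => cst_dg _ _ hr, fun r hr => cst_dg _ _ hr, ?_, fun k ω => hu k, ?_⟩
  · rw [← map_mul, ← map_one QS.mk]
    congr 1
    apply Subtype.ext
    funext k ω
    show 4 * (L k + 1) * (1 / (4 * (L k + 1))) = 1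
    have := hL0 k
    field_simp
  · refine ⟨fun i => ⟨fun k ω => max (-(1 / 4)) (min (1 / 4) (1 / (4 * (L k + 1)) * TR.ev (QS.rep (f i)) k ω)),
      ⟨fun _ => 1 / 4, S.Sub_const (by norm_num), Eventually.of_forall fun k ω _ => ?_⟩⟩, fun i k ω => ?_, fun i => ?_⟩
    · rw [abs_le]
      exact ⟨le_max_left _ _, max_le (by norm_num) (min_le_left _ _)⟩
    · show |max (-(1 / 4)) (min (1 / 4) (1 / (4 * (L k + 1)) * TR.ev (QS.rep (f i)) k ω))| ≤ 1 / 4
      rw [abs_le]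
      exact ⟨le_max_left _ _, max_le (by norm_num) (min_le_left _ _)⟩
    · have h2 : QS.mk u * f i = QS.mk (u * QS.rep (f i)) := by rw [map_mul, QS.mk_rep]
      rw [h2, QS.mk_eq]
      apply TR.Te.ag
      refine ⟨fun _ _ => True, Typ_true, ?_⟩
      filter_upwards [hK' i] with k hk ω hω _
      have h3 : |1 / (4 * (L k + 1)) * TR.ev (QS.rep (f i)) k ω| ≤ 1 / 4 := by
        have h4 := hL0 k
        rw [abs_mul, abs_of_nonneg (by positivity)]
        have h5 : |TR.ev (QS.rep (f i)) k ω| ≤ L k := by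
          refine (hk ω hω).trans ((le_abs_self _).trans ?_)
          exact Finset.single_le_sum (f := fun i => |K i k|) (fun i _ => abs_nonneg _) (Finset.mem_univ i)
        calc 1 / (4 * (L k + 1)) * |TR.ev (QS.rep (f i)) k ω| ≤ 1 / (4 * (L k + 1)) * (L k + 1) :=
              mul_le_mul_of_nonneg_left (by linarith) (by positivity)
          _ = 1 / 4 := by field_simp
      rw [abs_le] at h3
      show max (-(1 / 4)) (min (1 / 4) (1 / (4 * (L k + 1)) * TR.ev (QS.rep (f i)) k ω)) =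
        1 / (4 * (L k + 1)) * TR.ev (QS.rep (f i)) k ω
      rw [min_eq_right h3.2, max_eq_right h3.1]

/-- scalars do not change the digits -/
theorem dg_scalar {u v : QS S} (hu : ∀ r ≤ 1, QS.dg u r = ⊥) (hv : ∀ r ≤ 1, QS.dg v r = ⊥) (huv : v * u = 1)
    (f : QS S) {r : ℝ} (hr : r ≤ 1) : QS.dg (u * f) r = QS.dg f r := by
  apply le_antisymm
  · refine (QS.dg_mul_le _ _ hr).trans ?_
    rw [hu r hr, bot_sup_eq]
  · have h1 : f = v * (u * f) := by rw [← mul_assoc, huv, one_mul]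
    have h2 : QS.dg (v * (u * f)) r ≤ QS.dg (u * f) r := by
      refine (QS.dg_mul_le _ _ hr).trans ?_
      rw [hv r hr, bot_sup_eq]
    rw [← h1] at h2
    exact h2

theorem io_rd (y : Fin 2 → TR S) (hy : ∀ i k ω, |TR.ev (y i) k ω| ≤ 1) :
    Bdd (fun k ω (i : Fin 2) => rd (lev S 1 k) (TR.ev (y i) k ω)) ∧
      io (fun k ω (i : Fin 2) => rd (lev S 1 k) (TR.ev (y i) k ω)) = QS.vd (fun i => QS.mk (y i)) 1 := by
  have b0 := bdd_fl S (TR.ev (y 0)) 1 (hy 0) 1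
  have b1 := bdd_fl S (TR.ev (y 1)) 1 (hy 1) 1
  have i0 := io_fl S (y 0) 1 (hy 0) zero_le_one le_rfl
  have i1 := io_fl S (y 1) 1 (hy 1) zero_le_one le_rfl
  have bp := b0.pair b1
  have f1 : ∀ k, ∀ ω ω', (fl (lev S 1 k) (TR.ev (y 0) k ω), fl (lev S 1 k) (TR.ev (y 1) k ω)) =
      (fl (lev S 1 k) (TR.ev (y 0) k ω'), fl (lev S 1 k) (TR.ev (y 1) k ω')) →
      (fun i : Fin 2 => rd (lev S 1 k) (TR.ev (y i) k ω)) = fun i => rd (lev S 1 k) (TR.ev (y i) k ω') := by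
    intro k ω ω' hh
    rw [Prod.mk.injEq] at hh
    funext i
    unfold rd
    fin_cases i
    · show ((fl (lev S 1 k) (TR.ev (y 0) k ω) : ℤ) : ℝ) / _ = ((fl (lev S 1 k) (TR.ev (y 0) k ω') : ℤ) : ℝ) / _
      rw [hh.1]
    · show ((fl (lev S 1 k) (TR.ev (y 1) k ω) : ℤ) : ℝ) / _ = ((fl (lev S 1 k) (TR.ev (y 1) k ω') : ℤ) : ℝ) / _
      rw [hh.2]
  have bX : Bdd (fun k ω (i : Fin 2) => rd (lev S 1 k) (TR.ev (y i) k ω)) :=
    bp.of_fun (Eventually.of_forall fun k ω ω' _ _ _ hh => f1 k ω ω' hh)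
  refine ⟨bX, ?_⟩
  have e1 : QS.vd (fun i => QS.mk (y i)) 1 =
      io (fun k ω => (fl (lev S 1 k) (TR.ev (y 0) k ω), fl (lev S 1 k) (TR.ev (y 1) k ω))) := by
    rw [io_pair b0 b1, i0, i1]
    apply le_antisymm
    · rw [QS.vd_le]
      intro i
      fin_cases i
      · exact le_sup_left
      · exact le_sup_right
    · exact sup_le (QS.dg_le_vd (fun i => QS.mk (y i)) 1 0) (QS.dg_le_vd (fun i => QS.mk (y i)) 1 1)
  rw [e1]
  apply le_antisymm
  · exact io_le_of_fun bp (Eventually.of_forall fun k ω ω' _ _ _ hh => f1 k ω ω' hh)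
  · refine io_le_of_fun bX (Eventually.of_forall fun k ω ω' _ _ _ hh => ?_)
    have h0 := congrFun hh 0
    have h1 := congrFun hh 1
    beta_reduce at h0 h1
    have g0 : fl (lev S 1 k) (TR.ev (y 0) k ω) = fl (lev S 1 k) (TR.ev (y 0) k ω') := by
      rw [← fl_rd (lev S 1 k) (TR.ev (y 0) k ω), h0, fl_rd]
    have g1 : fl (lev S 1 k) (TR.ev (y 1) k ω) = fl (lev S 1 k) (TR.ev (y 1) k ω') := by
      rw [← fl_rd (lev S 1 k) (TR.ev (y 1) k ω), h1, fl_rd]
    rw [g0, g1]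

/-- rounded tame function -/
def rdT (y : TR S) (hy : ∀ k ω, |TR.ev y k ω| ≤ 1) : TR S :=
  ⟨fun k ω => rd (lev S 1 k) (TR.ev y k ω), ⟨fun _ => 1, S.Sub_const zero_le_one,
    Eventually.of_forall fun k ω _ => rd_le_one _ (hy k ω)⟩⟩

theorem rdT_ev (y : TR S) (hy : ∀ k ω, |TR.ev y k ω| ≤ 1) (k : ℕ) (ω : (S.F k).Ω) :
    TR.ev (rdT y hy) k ω = rd (lev S 1 k) (TR.ev y k ω) := rfl

theorem mk_rdT (y : TR S) (hy : ∀ k ω, |TR.ev y k ω| ≤ 1) : QS.mk (rdT y hy) = QS.mk y := by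
  rw [QS.mk_eq]
  refine ⟨fun _ _ => True, fun _ => 2, Typ_true, S.Sub_const (by norm_num), Eventually.of_forall fun k ω _ _ => ?_⟩
  rw [rdT_ev]
  refine (rd_close _ _).trans ?_
  have h0 : (0 : ℝ) < 2 ^ (lev S 1 k) := by positivity
  rw [div_le_iff₀ h0]
  have h4 : 2 * S.dl 1 k * (2 : ℝ) ^ (lev S 1 k) = 2 ^ ((lev S 1 k : ℝ) + 1 - 1 * (S.F k).n) := by
    unfold Sp.dl
    rw [Real.rpow_sub (by norm_num), Real.rpow_add (by norm_num), Real.rpow_natCast, Real.rpow_one,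
      Real.rpow_neg (by norm_num)]
    ring
  rw [h4]
  apply Real.one_le_rpow (by norm_num)
  have := lt_lev S 1 k
  linarith

/-- THEOREM W in the exact calculus with a window (statement) -/
def WECA : Prop :=
  ∀ (S : Sp) (ι : Type) (_ : Fintype ι) (B : ι → QS S) (z z' : QS S) (V V' : Fin 2 → QS S) (c a0 : ℝ), 0 < c →
    a0 < 1 → z' = z + (V 0 * V' 1 - V 1 * V' 0) →
    I (QS.dg z 1) (QS.vd V 1 ⊔ QS.vd V' 1) (QS.vd B 1) = 0 →
    I (QS.dg z' 1) (QS.vd V 1 ⊔ QS.vd V' 1) (QS.vd B 1) = 0 →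
    I (QS.vd V 1) (QS.vd V' 1) (QS.vd B 1) = 0 →
    h (QS.dg (V 0) 1) (QS.vd B 1) = 1 → h (QS.dg (V' 0) 1) (QS.vd B 1) = 1 →
    UnS z (QS.vd B 1) a0 c → V 0 * V' 1 - V 1 * V' 0 = 0

/-- the same over an arbitrary base -/
def WECL : Prop :=
  ∀ (S : Sp) (B : S.L) (z z' : QS S) (V V' : Fin 2 → QS S) (c a0 : ℝ), 0 < c →
    a0 < 1 → z' = z + (V 0 * V' 1 - V 1 * V' 0) →
    I (QS.dg z 1) (QS.vd V 1 ⊔ QS.vd V' 1) B = 0 →
    I (QS.dg z' 1) (QS.vd V 1 ⊔ QS.vd V' 1) B = 0 →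
    I (QS.vd V 1) (QS.vd V' 1) B = 0 →
    h (QS.dg (V 0) 1) B = 1 → h (QS.dg (V' 0) 1) B = 1 →
    UnS z B a0 c → V 0 * V' 1 - V 1 * V' 0 = 0

theorem exists_io (B : S.L) : ∃ (α : ℕ → Type) (Bc : ∀ k, (S.F k).Ω → α k), Bdd Bc ∧ io Bc = B := by
  induction B using Sp.cl_ind with | _ A
  have e1 : (fun k => Setoid.ker (Quotient.mk (A.1 k))) = A.1 := by
    funext k
    exact Setoid.ker_mk_eq (A.1 k)
  have hb : Bdd (fun k => Quotient.mk (A.1 k)) := by
    unfold Bdd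
    rw [e1]
    exact A.2
  refine ⟨fun k => Quotient (A.1 k), fun k => Quotient.mk (A.1 k), hb, ?_⟩
  rw [io_eq hb]
  congr 1
  exact Subtype.ext e1

theorem wecl_of (hW : ST_WA) : WECL := by
  intro S B z z' V V' c a0' hc h01' hz' i1 i2 i3 tx ty un'
  classical
  -- the window
  set a0 := max a0' 0 with ha0
  have h00 : 0 ≤ a0 := le_max_right _ _
  have h01 : a0 < 1 := max_lt h01' one_pos
  have un : UnS z B a0 c := fun T p E hE a b h1 h2 h3 => un' T p E hE a b ((le_max_left _ _).trans h1) h2 h3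
  -- the base
  obtain ⟨α, Bc, hB, hBv⟩ := exists_io B
  -- normalisation
  obtain ⟨u, v, hu, hv, huv, hu4, g, hg4, hgf⟩ := norm_exists (Sum.elim (fun _ : Unit => z) (Sum.elim V V'))
  have hX4 : ∀ (i : Fin 2) k ω, |TR.ev (g (Sum.inr (Sum.inl i))) k ω| ≤ 1 := fun i k ω => (hg4 _ k ω).trans (by norm_num)
  have hY4 : ∀ (i : Fin 2) k ω, |TR.ev (g (Sum.inr (Sum.inr i))) k ω| ≤ 1 := fun i k ω => (hg4 _ k ω).trans (by norm_num)
  have hz4 : ∀ k ω, |TR.ev (g (Sum.inl ())) k ω| ≤ 1 / 4 := fun k ω => hg4 _ k ω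
  have mX : ∀ i, QS.mk (g (Sum.inr (Sum.inl i))) = QS.mk u * V i := fun i => hgf (Sum.inr (Sum.inl i))
  have mY : ∀ i, QS.mk (g (Sum.inr (Sum.inr i))) = QS.mk u * V' i := fun i => hgf (Sum.inr (Sum.inr i))
  have mz : QS.mk (g (Sum.inl ())) = QS.mk u * z := hgf (Sum.inl ())
  set hf : TR S := cst S (fun _ => 1 / 2) ⟨fun _ => 1 / 2, S.Sub_const (by norm_num), Eventually.of_forall fun k => by
    rw [abs_of_nonneg (by norm_num)]⟩ with hhf
  have hfd : ∀ r ≤ 1, QS.dg (QS.mk hf) r = ⊥ := fun r hr => cst_dg _ _ hr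
  set zT : TR S := hf + u * g (Sum.inl ()) with hzT
  have zTe : ∀ k ω, TR.ev zT k ω = 1 / 2 + TR.ev u k ω * TR.ev (g (Sum.inl ())) k ω := fun k ω => rfl
  have zTb : ∀ k ω, |TR.ev u k ω * TR.ev (g (Sum.inl ())) k ω| ≤ 1 / 4 := by
    intro k ω
    rw [abs_mul]
    calc |TR.ev u k ω| * |TR.ev (g (Sum.inl ())) k ω| ≤ 1 / 4 * (1 / 4) :=
          mul_le_mul (hu4 k ω) (hz4 k ω) (abs_nonneg _) (by norm_num)
      _ ≤ 1 / 4 := by norm_num
  have zT0 : ∀ k ω, 0 ≤ TR.ev zT k ω ∧ TR.ev zT k ω < 1 := by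
    intro k ω
    rw [zTe]
    have := abs_le.mp (zTb k ω)
    constructor <;> linarith [this.1, this.2]
  have zT1 : ∀ k ω, |TR.ev zT k ω| ≤ 1 := by
    intro k ω
    rw [abs_of_nonneg (zT0 k ω).1]
    exact (zT0 k ω).2.le
  set XT : Fin 2 → TR S := fun i => rdT (g (Sum.inr (Sum.inl i))) (hX4 i) with hXT
  set YT : Fin 2 → TR S := fun i => rdT (g (Sum.inr (Sum.inr i))) (hY4 i) with hYT
  set X : ∀ k, (S.F k).Ω → Fin 2 → ℝ := fun k ω i => TR.ev (XT i) k ω with hX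
  set Y : ∀ k, (S.F k).Ω → Fin 2 → ℝ := fun k ω i => TR.ev (YT i) k ω with hY
  have hX1 : ∀ k ω i, |X k ω i| ≤ 1 := fun k ω i => rd_le_one _ (hX4 i k ω)
  have hY1 : ∀ k ω i, |Y k ω i| ≤ 1 := fun k ω i => rd_le_one _ (hY4 i k ω)
  have mXT : ∀ i, QS.mk (XT i) = QS.mk u * V i := fun i => (mk_rdT _ _).trans (mX i)
  have mYT : ∀ i, QS.mk (YT i) = QS.mk u * V' i := fun i => (mk_rdT _ _).trans (mY i)
  have mzT : QS.mk zT = QS.mk hf + QS.mk u * (QS.mk u * z) := by rw [hzT, map_add, map_mul, mz]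
  -- digits
  have dz : ∀ r ≤ 1, QS.dg (QS.mk zT) r = QS.dg z r := by
    intro r hr
    have e1 : QS.dg (QS.mk u * (QS.mk u * z)) r = QS.dg z r := by
      rw [dg_scalar hu hv huv _ hr, dg_scalar hu hv huv _ hr]
    rw [mzT, ← e1]
    apply le_antisymm
    · refine (QS.dg_add_le _ _ hr).trans ?_
      rw [hfd r hr, bot_sup_eq]
    · have e2 : QS.mk u * (QS.mk u * z) = (QS.mk hf + QS.mk u * (QS.mk u * z)) - QS.mk hf := by ring
      have e3 := QS.dg_sub_le (QS.mk hf + QS.mk u * (QS.mk u * z)) (QS.mk hf) hr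
      rw [← e2, hfd r hr, sup_bot_eq] at e3
      exact e3
  set f3 : TR S := zT + (XT 0 * YT 1 - XT 1 * YT 0) with hf3
  have f3e : ∀ k ω, TR.ev f3 k ω = TR.ev zT k ω + om (X k ω) (Y k ω) := fun k ω => rfl
  have m3 : QS.mk f3 = QS.mk hf + QS.mk u * (QS.mk u * z') := by
    rw [hf3, map_add, mzT, map_sub, map_mul, map_mul, mXT, mXT, mYT, mYT, hz']
    ring
  have omb : ∀ k ω, |om (X k ω) (Y k ω)| ≤ 2 := by
    intro k ω
    have a1 : |X k ω 0 * Y k ω 1| ≤ 1 := by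
      rw [abs_mul]
      exact mul_le_one₀ (hX1 k ω 0) (abs_nonneg _) (hY1 k ω 1)
    have a2 : |X k ω 1 * Y k ω 0| ≤ 1 := by
      rw [abs_mul]
      exact mul_le_one₀ (hX1 k ω 1) (abs_nonneg _) (hY1 k ω 0)
    unfold om
    rw [abs_le] at a1 a2 ⊢
    constructor <;> linarith [a1.1, a1.2, a2.1, a2.2]
  have f3b : ∀ k ω, |TR.ev f3 k ω| ≤ 3 := by
    intro k ω
    rw [f3e]
    refine (abs_add_le _ _).trans ?_
    linarith [zT1 k ω, omb k ω]
  have d3 : QS.dg (QS.mk f3) 1 = QS.dg z' 1 := by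
    have hr : (1 : ℝ) ≤ 1 := le_rfl
    have e1 : QS.dg (QS.mk u * (QS.mk u * z')) 1 = QS.dg z' 1 := by
      rw [dg_scalar hu hv huv _ hr, dg_scalar hu hv huv _ hr]
    rw [m3, ← e1]
    apply le_antisymm
    · refine (QS.dg_add_le _ _ hr).trans ?_
      rw [hfd 1 hr, bot_sup_eq]
    · have e2 : QS.mk u * (QS.mk u * z') = (QS.mk hf + QS.mk u * (QS.mk u * z')) - QS.mk hf := by ring
      have e3 := QS.dg_sub_le (QS.mk hf + QS.mk u * (QS.mk u * z')) (QS.mk hf) hr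
      rw [← e2, hfd 1 hr, sup_bot_eq] at e3
      exact e3
  -- informations
  obtain ⟨bX, ioX⟩ := io_rd (fun i => g (Sum.inr (Sum.inl i))) hX4
  obtain ⟨bY, ioY⟩ := io_rd (fun i => g (Sum.inr (Sum.inr i))) hY4
  have ioX' : io X = QS.vd V 1 := by
    refine ioX.trans ?_
    unfold QS.vd
    congr 1
    funext i
    beta_reduce
    rw [mX i]
    exact dg_scalar hu hv huv _ le_rfl
  have ioY' : io Y = QS.vd V' 1 := by
    refine ioY.trans ?_
    unfold QS.vd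
    congr 1
    funext i
    beta_reduce
    rw [mY i]
    exact dg_scalar hu hv huv _ le_rfl
  have iz : ∀ r, 0 ≤ r → r ≤ 1 → io (fun k ω => fl (lev S r k) (TR.ev zT k ω)) = QS.dg z r := fun r h0 h1 =>
    (io_fl S zT 1 zT1 h0 h1).trans (dz r h1)
  have i3' : io (fun k ω => fl (lev S 1 k) (TR.ev zT k ω + om (X k ω) (Y k ω))) = QS.dg z' 1 :=
    (io_fl S f3 3 f3b zero_le_one le_rfl).trans d3
  have ix0 : io (fun k ω => fl (lev S 1 k) (X k ω 0)) = QS.dg (V 0) 1 := by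
    refine (io_fl S (XT 0) 1 (fun k ω => hX1 k ω 0) zero_le_one le_rfl).trans ?_
    rw [mXT]
    exact dg_scalar hu hv huv _ le_rfl
  have iy0 : io (fun k ω => fl (lev S 1 k) (Y k ω 0)) = QS.dg (V' 0) 1 := by
    refine (io_fl S (YT 0) 1 (fun k ω => hY1 k ω 0) zero_le_one le_rfl).trans ?_
    rw [mYT]
    exact dg_scalar hu hv huv _ le_rfl
  have key : ∀ δ : ℝ, 0 < δ → δ < 1 → Typ (fun k ω => |om (X k ω) (Y k ω)| ≤ S.dl (1 - δ) k) := by
    intro δ hδ hδ1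
    refine WN hW S Bc hB (TR.ev zT) X Y zT0 hX1 hY1 (bdd_fl S _ 1 zT1) bX bY
      (bdd_fl S (TR.ev f3) 3 f3b 1) (bdd_fl S (TR.ev (XT 0)) 1 (fun k ω => hX1 k ω 0) 1)
      (bdd_fl S (TR.ev (YT 0)) 1 (fun k ω => hY1 k ω 0) 1) c a0 hc h00 h01 ?_ ?_ ?_ ?_ ?_ ?_ δ hδ hδ1
    · rw [iz 1 zero_le_one le_rfl, ioX', ioY', hBv]; exact i1
    · rw [i3', ioX', ioY', hBv]; exact i2
    · rw [ioX', ioY', hBv]; exact i3
    · rw [ix0, hBv]; exact tx
    · rw [iy0, hBv]; exact ty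
    · intro E hE a b h1 h2 h3
      rw [iz b (h00.trans (h1.trans h2)) h3, iz a (h00.trans h1) (h2.trans h3), hBv]
      have := un S (Pj.id S) E hE a b h1 h2 h3
      rwa [Pj.id_map, Pj.id_map] at this
  -- conclusion
  have fin1 : QS.mk (XT 0 * YT 1 - XT 1 * YT 0) = 0 := by
    rw [← map_zero QS.mk, QS.mk_eq]
    apply TR.ag_of_levels
    intro δ hδ
    rcases lt_or_ge δ 1 with h1 | h1
    · refine (key δ hδ h1).mono (Eventually.of_forall fun k ω _ hω => ?_)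
      rw [TR.ev_zero, sub_zero]
      exact hω
    · refine (key (1 / 2) (by norm_num) (by norm_num)).mono (Eventually.of_forall fun k ω _ hω => ?_)
      rw [TR.ev_zero, sub_zero]
      exact le_trans hω (S.dl_anti (by linarith) k)
  rw [map_sub, map_mul, map_mul, mXT, mXT, mYT, mYT] at fin1
  calc V 0 * V' 1 - V 1 * V' 0 = (QS.mk v * QS.mk u) * (QS.mk v * QS.mk u) * (V 0 * V' 1 - V 1 * V' 0) := by
        rw [huv]; ring
    _ = QS.mk v * QS.mk v * (QS.mk u * V 0 * (QS.mk u * V' 1) - QS.mk u * V 1 * (QS.mk u * V' 0)) := by ring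
    _ = 0 := by rw [fin1, mul_zero]

theorem weca_of (hW : ST_WA) : WECA := by
  intro S ι hι B z z' V V' c a0 hc h01 h1 h2 h3 h4 h5 h6 h7
  exact wecl_of hW S (QS.vd B 1) z z' V V' c a0 hc h01 h1 h2 h3 h4 h5 h6 h7

theorem wec_of (hW : ST_WA) : WEC := by
  intro S ι hι B z z' V V' c hc h1 h2 h3 h4 h5 h6 h7
  exact weca_of hW S ι hι B z z' V V' c 0 hc one_pos h1 h2 h3 h4 h5 h6 h7

end

end Pool.Agent.Helper61.EC
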