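import Pool.Agent.Helper31.EC.Uns
import Pool.Agent.Helper92.W.St

/-! Bridge from the finite Theorem W to the exact calculus: finite lemmas. -/

namespace Pool.Agent.Helper61.EC

open Finset Pool.Agent.Helper69.RK Pool.Agent.Helper31.EC Pool.Agent.Helper92.W Pool.Agent.Helper46.WF

noncomputable section

theorem wec_card {α β : Type} (i1 i2 : DecidableEq β) (p : α → Prop) (j1 j2 : DecidablePred p) (f : α → β)
    (s : Finset α) : ((@Finset.image α β i1 f (@Finset.filter α p j1 s)).card : ℝ) =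
      (@Finset.image α β i2 f (@Finset.filter α p j2 s)).card := by
  rw [Subsingleton.elim i1 i2, Subsingleton.elim j1 j2]

/-- surprisal along an event: lower bound for the entropy on the event -/
theorem srp_event {Ω α γ : Type} [Fintype Ω] (μ : Ω → ℝ) (h0 : ∀ ω, 0 ≤ μ ω) (f : Ω → α) (g : Ω → γ)
    (E : Ω → Prop) (t : ℝ) (ht : ∀ ω, μ ω ≠ 0 → E ω → t ≤ srp μ f g ω) :
    t * mass (res μ E) - mass μ ≤ CH (res μ E) f g := by
  classical
  have hr : ∀ ω, 0 ≤ res μ E ω := fun ω => ((st_E4 st_E1 st_E3).2.2 _ _ E h0).2.2 ω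
  have hle : ∀ ω, res μ E ω ≤ μ ω := by
    intro ω
    by_cases h : E ω
    · rw [res_pos _ _ _ h]
    · rw [res_neg _ _ _ h]; exact h0 ω
  -- entropy of the event
  have h1 : CH μ E g ≤ mass μ := by
    have h2 := st_E3.1 Ω _ _ μ E g (fun _ => 2) h0 (by
      intro ω _
      have h3 : (((univ : Finset Ω).filter (fun ω' => μ ω' ≠ 0 ∧ g ω' = g ω)).image E).card ≤ 2 := by
        refine (Finset.card_le_univ _).trans ?_
        simp
      have h4 : ((((univ : Finset Ω).filter (fun ω' => μ ω' ≠ 0 ∧ g ω' = g ω)).image E).card : ℝ) ≤ 2 := by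
        exact_mod_cast h3
      exact (wec_card _ _ _ _ _ _ _).le.trans h4)
    have h3 : ∑ ω, μ ω * Real.logb 2 2 = mass μ := by
      rw [Real.logb_self_eq_one (by norm_num)]
      simp [mass]
    rw [h3] at h2
    exact h2
  suffices h : 0 ≤ CH (res μ E) f g - t * mass (res μ E) + CH μ E g by linarith
  have e1 : CH (res μ E) f g - t * mass (res μ E) + CH μ E g =
      ∑ ω, (res μ E ω * (Real.logb 2 (pr (res μ E) g ω) - Real.logb 2 (pr (res μ E) (fun ω' => (f ω', g ω')) ω) - t) +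
        μ ω * (Real.logb 2 (pr μ g ω) - Real.logb 2 (pr μ (fun ω' => (E ω', g ω')) ω))) := by
    unfold CH mass
    rw [Finset.mul_sum, ← Finset.sum_sub_distrib, ← Finset.sum_add_distrib]
    apply Finset.sum_congr rfl
    intro ω _
    ring
  rw [e1]
  apply Finset.sum_nonneg
  intro ω _
  by_cases hω : μ ω = 0
  · have h2 : res μ E ω = 0 := le_antisymm (by rw [← hω]; exact hle ω) (hr ω)
    rw [h2, hω, zero_mul, zero_mul, add_zero]
  have hpos : 0 < μ ω := lt_of_le_of_ne (h0 ω) (Ne.symm hω)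
  have p1 := e1_pr_pos μ g h0 ω hω
  have p2 := e1_pr_pos μ (fun ω' => (E ω', g ω')) h0 ω hω
  by_cases hE : E ω
  · have q1 : res μ E ω = μ ω := res_pos _ _ _ hE
    have q2 : pr (res μ E) g ω = pr μ (fun ω' => (E ω', g ω')) ω := by
      rw [e1_pr_eq, e1_pr_eq]
      apply Finset.sum_congr rfl
      intro ω' _
      by_cases h3 : g ω' = g ω
      · rw [if_pos h3]
        by_cases h4 : E ω'
        · rw [res_pos _ _ _ h4, if_pos]
          rw [Prod.mk.injEq]
          exact ⟨propext ⟨fun _ => hE, fun _ => h4⟩, h3⟩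
        · rw [res_neg _ _ _ h4, if_neg]
          rw [Prod.mk.injEq]
          rintro ⟨h5, _⟩
          exact h4 (h5 ▸ hE)
      · rw [if_neg h3, if_neg]
        rw [Prod.mk.injEq]
        exact fun h5 => h3 h5.2
    have q3 : 0 < pr (res μ E) (fun ω' => (f ω', g ω')) ω := e1_pr_pos _ _ hr ω (by rw [q1]; exact hω)
    have q4 : pr (res μ E) (fun ω' => (f ω', g ω')) ω ≤ pr μ (fun ω' => (f ω', g ω')) ω := by
      rw [e1_pr_eq, e1_pr_eq]
      apply Finset.sum_le_sum
      intro ω' _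
      split_ifs
      · exact hle ω'
      · exact le_rfl
    have q5 := Real.logb_le_logb_of_le (by norm_num : (1 : ℝ) < 2) q3 q4
    have q6 := ht ω hω hE
    unfold srp at q6
    rw [q1, q2, ← mul_add]
    apply mul_nonneg hpos.le
    linarith
  · have q1 : res μ E ω = 0 := res_neg _ _ _ hE
    rw [q1, zero_mul, zero_add]
    apply mul_nonneg hpos.le
    have q4 : pr μ (fun ω' => (E ω', g ω')) ω ≤ pr μ g ω := by
      apply e1_pr_mono _ _ _ h0
      intro ω' _ h
      rw [Prod.mk.injEq] at h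
      exact h.2
    have q5 := Real.logb_le_logb_of_le (by norm_num : (1 : ℝ) < 2) p2 q4
    linarith

theorem fl_nest {l m : ℕ} (h : l ≤ m) (x : ℝ) : fl l x = ⌊((fl m x : ℤ) : ℝ) / 2 ^ (m - l)⌋ := by
  unfold fl
  have e1 : (2 : ℝ) ^ l * x = ((2 : ℝ) ^ m * x) / ((2 ^ (m - l) : ℕ) : ℝ) := by
    rw [eq_div_iff (by positivity)]
    push_cast
    have e2 : (2 : ℝ) ^ m = 2 ^ l * 2 ^ (m - l) := by rw [← pow_add]; congr 1; omega
    rw [e2]; ring
  have e3 : ((2 : ℝ) ^ (m - l)) = ((2 ^ (m - l) : ℕ) : ℝ) := by push_cast; rfl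
  rw [e1, e3, Int.floor_div_natCast, Int.floor_div_natCast, Int.floor_intCast]

theorem fl_eq_of {l m : ℕ} (h : l ≤ m) {x y : ℝ} (hxy : fl m x = fl m y) : fl l x = fl l y := by
  rw [fl_nest h x, fl_nest h y, hxy]

/-- surprisals of longer windows are larger -/
theorem srp_grid {Ω γ : Type} [Fintype Ω] (μ : Ω → ℝ) (h0 : ∀ ω, 0 ≤ μ ω) (z : Ω → ℝ) (F : Ω → γ) {a a' b b' : ℕ}
    (h1 : a' ≤ a) (h2 : a ≤ b) (h3 : b ≤ b') (ω : Ω) (hω : μ ω ≠ 0) :
    srp μ (fun ω' => fl b (z ω')) (fun ω' => (fl a (z ω'), F ω')) ω ≤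
      srp μ (fun ω' => fl b' (z ω')) (fun ω' => (fl a' (z ω'), F ω')) ω := by
  unfold srp
  have p1 := e1_pr_pos μ (fun ω' => (fl a (z ω'), F ω')) h0 ω hω
  have p2 := e1_pr_pos μ (fun ω' => (fl b' (z ω'), (fl a' (z ω'), F ω'))) h0 ω hω
  have q1 : pr μ (fun ω' => (fl a (z ω'), F ω')) ω ≤ pr μ (fun ω' => (fl a' (z ω'), F ω')) ω := by
    apply e1_pr_mono _ _ _ h0
    intro ω' _ h
    rw [Prod.mk.injEq] at h ⊢
    exact ⟨fl_eq_of h1 h.1, h.2⟩
  have q2 : pr μ (fun ω' => (fl b' (z ω'), (fl a' (z ω'), F ω'))) ω ≤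
      pr μ (fun ω' => (fl b (z ω'), (fl a (z ω'), F ω'))) ω := by
    apply e1_pr_mono _ _ _ h0
    intro ω' _ h
    rw [Prod.mk.injEq, Prod.mk.injEq] at h ⊢
    exact ⟨fl_eq_of h3 h.1, fl_eq_of (h2.trans h3) h.1, h.2.2⟩
  have r1 := Real.logb_le_logb_of_le (by norm_num : (1 : ℝ) < 2) p1 q1
  have r2 := Real.logb_le_logb_of_le (by norm_num : (1 : ℝ) < 2) p2 q2
  linarith

theorem Pw_eq {Ω : Type} [Fintype Ω] (μ : Ω → ℝ) (E : Ω → Prop) : Pw μ E = mass (res μ E) := by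
  classical
  unfold Pw mass res
  apply Finset.sum_congr rfl
  intro ω _
  by_cases h : E ω
  · simp [h]
  · simp [h]

end

end Pool.Agent.Helper61.EC
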