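import Pool.Agent.Helper61.EC.WecU
import Pool.Agent.Helper92.WA.St

/-! Bridge from the finite Theorem W to the exact calculus: the theorem for normalised random variables. -/

namespace Pool.Agent.Helper61.EC

open Finset Filter Topology Pool.Agent.Helper69.RK Pool.Agent.Helper31.EC Pool.Agent.Helper92.W Pool.Agent.Helper46.WF
  Pool.Agent.Helper92.WA

noncomputable section

open Sp

/-- conditional entropies over the base and a random variable -/
theorem CH_rt (S : Sp) {α β : ℕ → Type} (X : ∀ k, (S.F k).Ω → α k) (Y : ∀ k, (S.F k).Ω → β k) (k : ℕ) :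
    CH (S.F k).μ (X k) (fun ω => (Quotient.mk (S.F k).Z ω, Y k ω)) =
      S.rt (fun k => Setoid.ker (X k)) (fun k => Setoid.ker (Y k)) k * (S.F k).n := by
  have hn := (S.F k).pos
  unfold Sp.rt
  rw [div_mul_cancel₀ _ hn.ne']
  symm
  apply (S.F k).e_congr
  · intro ω ω' _ _
    exact Iff.rfl
  · intro ω ω' _ _
    rw [Prod.mk.injEq]
    constructor
    · rintro ⟨u1, u2⟩
      exact ⟨Quotient.sound u2, u1⟩
    · rintro ⟨u1, u2⟩
      exact ⟨u2, Quotient.exact u1⟩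

/-- the same with one more variable in the condition -/
theorem CH_rt2 (S : Sp) {α β γ : ℕ → Type} (X : ∀ k, (S.F k).Ω → α k) (Y : ∀ k, (S.F k).Ω → β k)
    (U : ∀ k, (S.F k).Ω → γ k) (k : ℕ) :
    CH (S.F k).μ (X k) (fun ω => (U k ω, (Quotient.mk (S.F k).Z ω, Y k ω))) =
      S.rt (fun k => Setoid.ker (X k)) (fun k => Setoid.ker (fun ω => (U k ω, Y k ω))) k * (S.F k).n := by
  rw [← CH_rt]
  apply e2_CH_congr
  · intro ω ω' _ _
    simp only [Prod.mk.injEq]
    tauto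
  · intro ω ω' _ _
    simp only [Prod.mk.injEq]
    tauto

/-- eventual form of independence -/
theorem ev_indep (S : Sp) {α β γ : ℕ → Type} {X : ∀ k, (S.F k).Ω → α k} {Y : ∀ k, (S.F k).Ω → β k}
    {U : ∀ k, (S.F k).Ω → γ k} (hX : Bdd X) (hY : Bdd Y) (hU : Bdd U) (h0 : I (io X) (io U) (io Y) = 0) {η : ℝ}
    (hη : 0 < η) : ∀ᶠ k in UF, CH (S.F k).μ (X k) (fun ω => (Quotient.mk (S.F k).Z ω, Y k ω)) ≤
      CH (S.F k).μ (X k) (fun ω => (U k ω, (Quotient.mk (S.F k).Z ω, Y k ω))) + η * (S.F k).n := by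
  rw [I_zero_iff_h, ← io_pair hU hY, h_io hX (hU.pair hY), h_io hX hY] at h0
  have u1 : UB (S.rt (fun k => Setoid.ker (X k)) (fun k => Setoid.ker (fun ω => (U k ω, Y k ω)))) :=
    UB_rt hX.toInf _
  have u2 : UB (S.rt (fun k => Setoid.ker (X k)) (fun k => Setoid.ker (Y k))) := UB_rt hX.toInf _
  have t1 := (ul_tendsto u2).sub (ul_tendsto u1)
  rw [h0, sub_self] at t1
  filter_upwards [t1.eventually (gt_mem_nhds hη)] with k hk
  rw [CH_rt, CH_rt2]
  have hn := (S.F k).pos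
  nlinarith

/-- eventual form of maximal entropy -/
theorem ev_full (S : Sp) {α β : ℕ → Type} {X : ∀ k, (S.F k).Ω → α k} {Y : ∀ k, (S.F k).Ω → β k}
    (hX : Bdd X) (hY : Bdd Y) (h0 : h (io X) (io Y) = 1) {η : ℝ} (hη : 0 < η) :
    ∀ᶠ k in UF, (1 - η) * (S.F k).n ≤ CH (S.F k).μ (X k) (fun ω => (Quotient.mk (S.F k).Z ω, Y k ω)) := by
  rw [h_io hX hY] at h0
  have u2 : UB (S.rt (fun k => Setoid.ker (X k)) (fun k => Setoid.ker (Y k))) := UB_rt hX.toInf _
  have t1 := ul_tendsto u2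
  rw [h0] at t1
  filter_upwards [t1.eventually (lt_mem_nhds (show 1 - η < 1 by linarith))] with k hk
  rw [CH_rt]
  exact mul_le_mul_of_nonneg_right hk.le (S.F k).pos.le

theorem WN (hW : ST_WA) (S : Sp) {α : ℕ → Type} (Bc : ∀ k, (S.F k).Ω → α k) (hB : Bdd Bc)
    (g : ∀ k, (S.F k).Ω → ℝ) (X Y : ∀ k, (S.F k).Ω → Fin 2 → ℝ) (hg0 : ∀ k ω, 0 ≤ g k ω ∧ g k ω < 1)
    (hX1 : ∀ k ω i, |X k ω i| ≤ 1) (hY1 : ∀ k ω i, |Y k ω i| ≤ 1)
    (hg : ∀ r, Bdd (fun k ω => fl (lev S r k) (g k ω))) (hXB : Bdd X) (hYB : Bdd Y)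
    (h3B : Bdd (fun k ω => fl (lev S 1 k) (g k ω + om (X k ω) (Y k ω))))
    (hX0 : Bdd (fun k ω => fl (lev S 1 k) (X k ω 0))) (hY0 : Bdd (fun k ω => fl (lev S 1 k) (Y k ω 0)))
    (c a0 : ℝ) (hc : 0 < c) (h00 : 0 ≤ a0) (h01 : a0 < 1)
    (i1 : I (io (fun k ω => fl (lev S 1 k) (g k ω))) (io X ⊔ io Y) (io Bc) = 0)
    (i2 : I (io (fun k ω => fl (lev S 1 k) (g k ω + om (X k ω) (Y k ω)))) (io X ⊔ io Y) (io Bc) = 0)
    (i3 : I (io X) (io Y) (io Bc) = 0)
    (tx : h (io (fun k ω => fl (lev S 1 k) (X k ω 0))) (io Bc) = 1)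
    (ty : h (io (fun k ω => fl (lev S 1 k) (Y k ω 0))) (io Bc) = 1)
    (hun : ∀ (E : ∀ k, (S.F k).Ω → Prop) (hE : 0 < ul (S.pr E)) (a b : ℝ), a0 ≤ a → a ≤ b → b ≤ 1 →
      h (restL E hE (io (fun k ω => fl (lev S b k) (g k ω))))
        (restL E hE (io (fun k ω => fl (lev S a k) (g k ω)) ⊔ io Bc)) ≤ (1 - c) * (b - a))
    (δ : ℝ) (hδ : 0 < δ) (hδ1 : δ < 1) :
    Typ (fun k ω => |om (X k ω) (Y k ω)| ≤ S.dl (1 - δ) k) := by
  classical
  set c' := min c 1 with hc'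
  have hc0' : 0 < c' := lt_min hc one_pos
  have hc1' : c' ≤ 1 := min_le_right _ _
  set P : ℕ → ℝ := fun k => mass (res (S.F k).μ (fun ω => ¬ |om (X k ω) (Y k ω)| ≤ S.dl (1 - δ) k)) with hP
  have hPU : UB P := UB_of_nonneg_le (Eventually.of_forall fun k => mass_res_nonneg k _)
    (Eventually.of_forall fun k => mass_res_le_one k _)
  have hP0 : 0 ≤ ul P := const_le_ul hPU (Eventually.of_forall fun k => mass_res_nonneg k _)
  rcases hP0.eq_or_lt with h1 | h1
  · have h2 := ul_tendsto hPU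
    rw [← h1] at h2
    exact h2
  exfalso
  set ε := ul P / 2 with hε
  have hε0 : 0 < ε := half_pos h1
  have hεP : ∀ᶠ k in UF, ε < P k := eventually_gt_of_lt_ul hPU (by rw [hε]; linarith)
  set κ := 1 - δ / 2 with hκ
  obtain ⟨η, hη, n0, hn0⟩ := hW c' κ a0 ε hc0' hc1' (by rw [hκ]; linarith) (by rw [hκ]; linarith) h01 hε0
  have hun' : ∀ (E : ∀ k, (S.F k).Ω → Prop) (hE : 0 < ul (S.pr E)) (a b : ℝ), a0 ≤ a → a ≤ b → b ≤ 1 →
      h (restL E hE (io (fun k ω => fl (lev S b k) (g k ω))))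
        (restL E hE (io (fun k ω => fl (lev S a k) (g k ω)) ⊔ io Bc)) ≤ (1 - c') * (b - a) := by
    intro E hE a b h1 h2 h3
    refine (hun E hE a b h1 h2 h3).trans ?_
    apply mul_le_mul_of_nonneg_right _ (by linarith)
    have := min_le_left c 1
    linarith
  have e1 := un_of S Bc hB g hg a0 c' η h00 h01 hc0'.le hc1' hη hun'
  have e2 := ev_indep S (hg 1) hB (hXB.pair hYB) (by rw [io_pair hXB hYB]; exact i1) (half_pos hη)
  have e3 := ev_indep S h3B hB (hXB.pair hYB) (by rw [io_pair hXB hYB]; exact i2) (half_pos hη)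
  have e4 := ev_indep S hXB hB hYB i3 (half_pos hη)
  have e5 := ev_full S hX0 hB tx (half_pos hη)
  have e6 := ev_full S hY0 hB ty (half_pos hη)
  have e7 := S.lim.eventually_ge_atTop (max (max 2 (2 / δ)) (n0 + 1))
  obtain ⟨k, k0, k1, k2, k3, k4, k5, k6, k7⟩ :=
    (hεP.and (e1.and (e2.and (e3.and (e4.and (e5.and (e6.and e7))))))).exists
  have hn := (S.F k).pos
  set N : ℕ := lev S 1 k with hN
  have hNle : (N : ℝ) ≤ (S.F k).n := by
    have := lev_le S zero_le_one k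
    rwa [one_mul] at this
  have hNlt : (S.F k).n < N + 1 := by
    have := lt_lev S 1 k
    rwa [one_mul] at this
  have hn2 : 2 ≤ (S.F k).n := (le_max_left _ _).trans ((le_max_left _ _).trans k7)
  have hnδ : 2 / δ ≤ (S.F k).n := (le_max_right _ _).trans ((le_max_left _ _).trans k7)
  have hnn0 : (n0 : ℝ) + 1 ≤ (S.F k).n := (le_max_right _ _).trans k7
  have hNn0 : n0 ≤ N := by
    have : (n0 : ℝ) < N + 1 := by linarith
    have h3 : n0 < N + 1 := by exact_mod_cast this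
    omega
  have hηN : η / 2 * (S.F k).n ≤ η * N := by
    have h3 : (S.F k).n / 2 ≤ N := by linarith
    have h4 := mul_le_mul_of_nonneg_left h3 hη.le
    linarith
  have hfullN : ∀ t : ℝ, 0 ≤ t → (1 - η / 2) * (S.F k).n ≤ t → (1 - η) * N ≤ t := by
    intro t ht0 ht
    rcases le_total 0 (1 - η) with h3 | h3
    · have h4 := mul_le_mul_of_nonneg_left hNle h3
      have h5 : (1 - η) * (S.F k).n ≤ (1 - η / 2) * (S.F k).n := mul_le_mul_of_nonneg_right (by linarith) hn.le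
      linarith
    · have h4 : (1 - η) * N ≤ 0 := mul_nonpos_of_nonpos_of_nonneg h3 (Nat.cast_nonneg _)
      linarith
  have hBlk : BlkA N η c' a0 (S.F k).μ (fun ω => (Quotient.mk (S.F k).Z ω, Bc k ω)) (g k) (X k) (Y k) := by
    refine ⟨(S.F k).nn, (S.F k).ms, hg0 k, hX1 k, hY1 k, ?_, ?_, ?_, ?_, ?_, k1⟩
    · refine k2.trans ?_
      have h3 : CH (S.F k).μ (fun ω => fl N (g k ω)) (fun ω => ((X k ω, Y k ω), (Quotient.mk (S.F k).Z ω, Bc k ω))) =
          CH (S.F k).μ (fun ω => fl N (g k ω)) (fun ω => (X k ω, Y k ω, (Quotient.mk (S.F k).Z ω, Bc k ω))) := by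
        apply e2_CH_congr
        · intro ω ω' _ _
          simp only [Prod.mk.injEq]
          tauto
        · intro ω ω' _ _
          simp only [Prod.mk.injEq]
          tauto
      rw [h3]
      linarith
    · refine k3.trans ?_
      have h3 : CH (S.F k).μ (fun ω => fl N (g k ω + om (X k ω) (Y k ω)))
          (fun ω => ((X k ω, Y k ω), (Quotient.mk (S.F k).Z ω, Bc k ω))) =
          CH (S.F k).μ (fun ω => fl N (g k ω + om (X k ω) (Y k ω)))
          (fun ω => (X k ω, Y k ω, (Quotient.mk (S.F k).Z ω, Bc k ω))) := by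
        apply e2_CH_congr
        · intro ω ω' _ _
          simp only [Prod.mk.injEq]
          tauto
        · intro ω ω' _ _
          simp only [Prod.mk.injEq]
          tauto
      rw [h3]
      linarith
    · refine k4.trans ?_
      linarith
    · exact hfullN _ (e1_nonneg _ _ _ (S.F k).nn) k5
    · exact hfullN _ (e1_nonneg _ _ _ (S.F k).nn) k6
  have hfin := hn0 N hNn0 _ _ _ _ _ _ _ hBlk
  have hcmp : P k ≤ Pw (S.F k).μ (fun ω => (2 : ℝ) ^ (-(κ * N)) < |om (X k ω) (Y k ω)|) := by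
    rw [Pw_eq]
    apply (S.F k).pb_mono
    intro ω _ hω
    rw [not_le] at hω
    refine lt_of_le_of_lt ?_ hω
    unfold Sp.dl
    apply Real.rpow_le_rpow_of_exponent_le (by norm_num)
    have h3 : κ * ((S.F k).n - 1) ≤ κ * N := mul_le_mul_of_nonneg_left (by linarith) (by rw [hκ]; linarith)
    have h4 : 2 ≤ δ * (S.F k).n := by
      rw [div_le_iff₀ hδ] at hnδ
      linarith
    have h5 : (1 - δ) * (S.F k).n ≤ κ * ((S.F k).n - 1) := by
      rw [hκ]
      nlinarith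
    linarith
  linarith

end

end Pool.Agent.Helper61.EC
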