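import Pool.Agent.Helper61.EC.WecF

/-! Bridge from the finite Theorem W to the exact calculus: robustly unsaturated variables are unsaturated along most
paths. -/

namespace Pool.Agent.Helper61.EC

open Finset Filter Topology Pool.Agent.Helper69.RK Pool.Agent.Helper31.EC Pool.Agent.Helper92.W Pool.Agent.Helper46.WF

noncomputable section

open Sp

/-- the integer level of the rate `r` -/
def lev (S : Sp) (r : ℝ) (k : ℕ) : ℕ := ⌊r * (S.F k).n⌋₊

theorem lev_le (S : Sp) {r : ℝ} (hr : 0 ≤ r) (k : ℕ) : (lev S r k : ℝ) ≤ r * (S.F k).n :=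
  Nat.floor_le (mul_nonneg hr (S.F k).pos.le)

theorem lt_lev (S : Sp) (r : ℝ) (k : ℕ) : r * (S.F k).n < lev S r k + 1 := Nat.lt_floor_add_one _

/-- rounding of the levels to a grid -/
theorem grid {n a0 : ℝ} (hn : 0 < n) (h00 : 0 ≤ a0) (h01 : a0 < 1) {M : ℕ} (hM : 1 ≤ M) {N a b : ℕ} (hN : (N : ℝ) ≤ n)
    (hN' : n < N + 1) (h1 : a0 * N ≤ a) (h2 : a ≤ b) (h3 : b ≤ N) :
    ∃ i j : ℕ, i ≤ j ∧ j ≤ M ∧ ⌊(a0 + (1 - a0) * (i / M)) * n⌋₊ ≤ a ∧ b ≤ ⌊(a0 + (1 - a0) * (j / M)) * n⌋₊ ∧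
      ((a0 + (1 - a0) * (j / M)) - (a0 + (1 - a0) * (i / M))) ≤ ((b : ℝ) - a) / n + 2 / M := by
  have hM0 : (0 : ℝ) < M := by exact_mod_cast hM
  have hd : 0 < 1 - a0 := by linarith
  have hab : (a : ℝ) ≤ b := by exact_mod_cast h2
  have hbn : (b : ℝ) ≤ n := le_trans (by exact_mod_cast h3) hN
  set y : ℝ := ((a : ℝ) / n - a0) / (1 - a0) * M with hy
  set x : ℝ := ((b : ℝ) / n - a0) / (1 - a0) * M with hx
  have hyx : y ≤ x := by
    apply mul_le_mul_of_nonneg_right _ hM0.le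
    apply div_le_div_of_nonneg_right _ hd.le
    have := div_le_div_of_nonneg_right hab hn.le
    linarith
  have hx1 : x ≤ M := by
    have e1 : ((b : ℝ) / n - a0) / (1 - a0) ≤ 1 := by
      rw [div_le_one hd]
      have := (div_le_one hn).mpr hbn
      linarith
    calc x ≤ 1 * M := mul_le_mul_of_nonneg_right e1 hM0.le
      _ = M := one_mul _
  have key : ∀ t : ℝ, a0 + (1 - a0) * (((t - a0) / (1 - a0) * M) / M) = t := by
    intro t
    field_simp
    ring
  have hmono : ∀ s t : ℝ, s ≤ t → a0 + (1 - a0) * (s / M) ≤ a0 + (1 - a0) * (t / M) := by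
    intro s t hst
    have := div_le_div_of_nonneg_right hst hM0.le
    have := mul_le_mul_of_nonneg_left this hd.le
    linarith
  refine ⟨⌊y⌋₊, ⌈x⌉₊, (Nat.floor_mono hyx).trans (Nat.floor_le_ceil x), Nat.ceil_le.mpr hx1, ?_, ?_, ?_⟩
  · rcases le_or_gt 0 y with hy0 | hy0
    · have e1 := hmono _ _ (Nat.floor_le hy0)
      rw [hy, key] at e1
      apply Nat.floor_le_of_le
      have e2 := mul_le_mul_of_nonneg_right e1 hn.le
      rw [div_mul_cancel₀ _ hn.ne'] at e2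
      exact e2
    · have e1 : ⌊y⌋₊ = 0 := Nat.floor_of_nonpos hy0.le
      rw [e1]
      have e2 : (a0 + (1 - a0) * (((0 : ℕ) : ℝ) / M)) * n = a0 * n := by push_cast; ring
      rw [e2]
      have e3 : a0 * n < a + 1 := by nlinarith
      have e4 : ⌊a0 * n⌋₊ < a + 1 := by
        rw [Nat.floor_lt (mul_nonneg h00 hn.le)]
        push_cast
        exact e3
      omega
  · apply Nat.le_floor
    have e1 := hmono _ _ (Nat.le_ceil x)
    rw [hx, key] at e1
    have e2 := mul_le_mul_of_nonneg_right e1 hn.le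
    rw [div_mul_cancel₀ _ hn.ne'] at e2
    exact e2
  · have e1 : (a : ℝ) / n - 1 / M ≤ a0 + (1 - a0) * ((⌊y⌋₊ : ℝ) / M) := by
      have e2 := hmono _ _ (Nat.lt_floor_add_one y).le
      rw [hy, key] at e2
      rw [← hy] at e2
      have e3 : a0 + (1 - a0) * (((⌊y⌋₊ : ℝ) + 1) / M) = a0 + (1 - a0) * ((⌊y⌋₊ : ℝ) / M) + (1 - a0) * (1 / M) := by ring
      rw [e3] at e2
      have e4 : (1 - a0) * (1 / (M : ℝ)) ≤ 1 * (1 / M) := mul_le_mul_of_nonneg_right (by linarith) (by positivity)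
      linarith
    rcases le_or_gt 0 x with hx0 | hx0
    · have e2 := hmono _ _ (Nat.ceil_lt_add_one hx0).le
      have e3 : a0 + (1 - a0) * ((x + 1) / M) = a0 + (1 - a0) * (x / M) + (1 - a0) * (1 / M) := by ring
      rw [e3, hx, key, ← hx] at e2
      have e4 : (1 - a0) * (1 / (M : ℝ)) ≤ 1 * (1 / M) := mul_le_mul_of_nonneg_right (by linarith) (by positivity)
      rw [sub_div]
      have e5 : (2 : ℝ) / M = 1 / M + 1 / M := by ring
      rw [e5]
      linarith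
    · have e2 : ⌈x⌉₊ = 0 := Nat.ceil_eq_zero.mpr hx0.le
      rw [e2]
      have e3 : 0 ≤ (1 - a0) * ((⌊y⌋₊ : ℝ) / M) := by positivity
      have e4 : 0 ≤ ((b : ℝ) - a) / n := div_nonneg (by linarith) hn.le
      have e5 : 0 ≤ (2 : ℝ) / M := by positivity
      push_cast
      rw [zero_div, mul_zero]
      linarith

/-- saturated paths -/
def Bad (S : Sp) {α : ℕ → Type} (Bc : ∀ k, (S.F k).Ω → α k) (g : ∀ k, (S.F k).Ω → ℝ) (a0 c η : ℝ) (k : ℕ)
    (ω : (S.F k).Ω) : Prop :=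
  ∃ a b : ℕ, a0 * (lev S 1 k) ≤ a ∧ a ≤ b ∧ b ≤ lev S 1 k ∧
    (1 - c) * ((b : ℝ) - a) + η * (lev S 1 k) < srp (S.F k).μ (fun ω' => fl b (g k ω'))
      (fun ω' => (fl a (g k ω'), (Quotient.mk (S.F k).Z ω', Bc k ω'))) ω

/-- robustly unsaturated variables are unsaturated along most paths -/
theorem un_of (S : Sp) {α : ℕ → Type} (Bc : ∀ k, (S.F k).Ω → α k) (hB : Bdd Bc) (g : ∀ k, (S.F k).Ω → ℝ)
    (hg : ∀ r, Bdd (fun k ω => fl (lev S r k) (g k ω))) (a0 c η : ℝ) (h00 : 0 ≤ a0) (h01 : a0 < 1) (hc0 : 0 ≤ c)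
    (hc1 : c ≤ 1) (hη : 0 < η)
    (hun : ∀ (E : ∀ k, (S.F k).Ω → Prop) (hE : 0 < ul (S.pr E)) (a b : ℝ), a0 ≤ a → a ≤ b → b ≤ 1 →
      h (restL E hE (io (fun k ω => fl (lev S b k) (g k ω))))
        (restL E hE (io (fun k ω => fl (lev S a k) (g k ω)) ⊔ io Bc)) ≤ (1 - c) * (b - a)) :
    ∀ᶠ k in UF, Pw (S.F k).μ (Bad S Bc g a0 c η k) ≤ η := by
  classical
  by_contra hcon
  have h1 := UF_not hcon
  obtain ⟨M, hM8⟩ := exists_nat_ge (8 / η)
  have hM0 : (0 : ℝ) < M := lt_of_lt_of_le (by positivity) hM8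
  have hM1 : 1 ≤ M := by exact_mod_cast hM0
  have hM2 : 2 / (M : ℝ) ≤ η / 4 := by
    rw [div_le_iff₀ hM0]
    rw [div_le_iff₀ hη] at hM8
    linarith
  set ρ : ℕ → ℝ := fun i => a0 + (1 - a0) * (i / M) with hρ
  set E : Fin (M + 1) × Fin (M + 1) → ∀ k, (S.F k).Ω → Prop := fun p k ω =>
    (p.1 : ℕ) ≤ p.2 ∧ ((1 - c) * (ρ p.2 - ρ p.1) + η / 4) * (S.F k).n ≤
      srp (S.F k).μ (fun ω' => fl (lev S (ρ p.2) k) (g k ω'))
        (fun ω' => (fl (lev S (ρ p.1) k) (g k ω'), (Quotient.mk (S.F k).Z ω', Bc k ω'))) ω with hE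
  -- (A)
  have hA : ∀ᶠ k in UF, η < ∑ p, S.pr (E p) k := by
    filter_upwards [h1, S.lim.eventually_ge_atTop 2] with k hk hn2
    have hn := (S.F k).pos
    rw [not_le] at hk
    refine lt_of_lt_of_le hk ?_
    have hNle : (lev S 1 k : ℝ) ≤ (S.F k).n := by
      have := lev_le S zero_le_one k
      rwa [one_mul] at this
    have hNlt : (S.F k).n < lev S 1 k + 1 := by
      have := lt_lev S 1 k
      rwa [one_mul] at this
    rw [Pw_eq]
    have e1 : ∑ p, S.pr (E p) k = ∑ ω, ∑ p, res (S.F k).μ (E p k) ω := by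
      rw [Finset.sum_comm]
      rfl
    rw [e1]
    unfold mass
    apply Finset.sum_le_sum
    intro ω _
    have hnn : ∀ p, 0 ≤ res (S.F k).μ (E p k) ω := fun p => (S.F k).res_nonneg (E p k) ω
    by_cases hω : (S.F k).μ ω = 0
    · have : res (S.F k).μ (Bad S Bc g a0 c η k) ω ≤ 0 := by
        unfold res
        split_ifs
        · exact hω.le
        · exact le_rfl
      exact this.trans (Finset.sum_nonneg fun p _ => hnn p)
    · by_cases hbad : Bad S Bc g a0 c η k ω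
      · rw [res_pos _ _ _ hbad]
        obtain ⟨a, b, ha, hab, hb, hs⟩ := hbad
        obtain ⟨i, j, hij, hj, hi1, hj1, hd⟩ := grid hn h00 h01 hM1 hNle hNlt ha hab hb
        have hEp : E (⟨i, by omega⟩, ⟨j, by omega⟩) k ω := by
          refine ⟨hij, ?_⟩
          have g1 := srp_grid (S.F k).μ (S.F k).nn (g k) (fun ω' => (Quotient.mk (S.F k).Z ω', Bc k ω')) hi1 hab hj1 ω hω
          refine le_trans ?_ g1
          refine le_trans ?_ hs.le
          have g2 : (ρ j - ρ i) * (S.F k).n ≤ (b : ℝ) - a + 2 / M * (S.F k).n := by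
            have g3 := mul_le_mul_of_nonneg_right hd hn.le
            rw [add_mul, div_mul_cancel₀ _ hn.ne'] at g3
            exact g3
          have g4 : 2 / (M : ℝ) * (S.F k).n ≤ η / 4 * (S.F k).n := mul_le_mul_of_nonneg_right hM2 hn.le
          have g5 : (1 - c) * ((ρ j - ρ i) * (S.F k).n) ≤ (1 - c) * ((b : ℝ) - a + η / 4 * (S.F k).n) :=
            mul_le_mul_of_nonneg_left (by linarith) (by linarith)
          have g6 : (1 - c) * (η / 4 * (S.F k).n) ≤ 1 * (η / 4 * (S.F k).n) :=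
            mul_le_mul_of_nonneg_right (by linarith) (by positivity)
          have g7 : η * ((S.F k).n / 2) ≤ η * (lev S 1 k) := mul_le_mul_of_nonneg_left (by linarith) hη.le
          show ((1 - c) * (ρ j - ρ i) + η / 4) * (S.F k).n ≤ _
          nlinarith
        have g8 := Finset.single_le_sum (f := fun p => res (S.F k).μ (E p k) ω) (fun p _ => hnn p)
          (Finset.mem_univ ((⟨i, by omega⟩, ⟨j, by omega⟩) : Fin (M + 1) × Fin (M + 1)))
        refine le_trans (le_of_eq ?_) g8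
        show _ = res (S.F k).μ (E (⟨i, by omega⟩, ⟨j, by omega⟩) k) ω
        rw [res_pos _ _ _ hEp]
      · rw [res_neg _ _ _ hbad]
        exact Finset.sum_nonneg fun p _ => hnn p
  -- (B)
  have hB1 : η ≤ ∑ p, ul (S.pr (E p)) := by
    have t : Tendsto (fun k => ∑ p, S.pr (E p) k) UF (𝓝 (∑ p, ul (S.pr (E p)))) :=
      tendsto_finsetSum _ fun p _ => ul_tendsto (UB_pr (E p))
    exact ge_of_tendsto t (hA.mono fun k hk => hk.le)
  obtain ⟨p, hp⟩ : ∃ p, 0 < ul (S.pr (E p)) := by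
    by_contra hc
    push Not at hc
    have : ∑ p, ul (S.pr (E p)) ≤ 0 := Finset.sum_nonpos fun p _ => hc p
    linarith
  -- (C)
  have hij : (p.1 : ℕ) ≤ p.2 := by
    by_contra hc
    have e1 : S.pr (E p) = fun _ => 0 := by
      funext k
      unfold Sp.pr FSp.pb mass
      apply Finset.sum_eq_zero
      intro ω _
      exact res_neg _ _ _ (fun hh => hc hh.1)
    rw [e1, ul_const] at hp
    exact lt_irrefl 0 hp
  have hpM : ((p.2 : ℕ) : ℝ) ≤ M := by
    have := p.2.2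
    have h2 : (p.2 : ℕ) ≤ M := by omega
    exact_mod_cast h2
  have hd : 0 < 1 - a0 := by linarith
  have hρ1 : a0 ≤ ρ p.1 := by
    have : 0 ≤ (1 - a0) * (((p.1 : ℕ) : ℝ) / M) := by positivity
    show a0 ≤ a0 + (1 - a0) * (((p.1 : ℕ) : ℝ) / M)
    linarith
  have hρ2 : ρ p.1 ≤ ρ p.2 := by
    have e1 : ((p.1 : ℕ) : ℝ) ≤ (p.2 : ℕ) := by exact_mod_cast hij
    have e2 := mul_le_mul_of_nonneg_left (div_le_div_of_nonneg_right e1 hM0.le) hd.le
    show a0 + (1 - a0) * (((p.1 : ℕ) : ℝ) / M) ≤ a0 + (1 - a0) * (((p.2 : ℕ) : ℝ) / M)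
    linarith
  have hρ3 : ρ p.2 ≤ 1 := by
    have e1 := (div_le_one hM0).mpr hpM
    have e2 := mul_le_mul_of_nonneg_left e1 hd.le
    show a0 + (1 - a0) * (((p.2 : ℕ) : ℝ) / M) ≤ 1
    linarith
  have h2 := hun (E p) hp (ρ p.1) (ρ p.2) hρ1 hρ2 hρ3
  set za : ∀ k, (S.F k).Ω → ℤ := fun k ω => fl (lev S (ρ p.1) k) (g k ω) with hza
  set zb : ∀ k, (S.F k).Ω → ℤ := fun k ω => fl (lev S (ρ p.2) k) (g k ω) with hzb
  have ba : Bdd za := hg _
  have bb : Bdd zb := hg _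
  have e1 : restL (E p) hp (io za ⊔ io Bc) = io (S := S.rest (E p)) (fun k ω => (za k ω, Bc k ω)) := by
    rw [← io_pair ba hB]
    exact restL_io (E p) hp (ba.pair hB)
  have e2 : restL (E p) hp (io zb) = io (S := S.rest (E p)) zb := restL_io (E p) hp bb
  have b1 : Bdd (S := S.rest (E p)) zb := rest_VB (E p) bb
  have b2 : Bdd (S := S.rest (E p)) (fun k ω => (za k ω, Bc k ω)) := rest_VB (E p) (ba.pair hB)
  rw [e1, e2, h_io b1 b2] at h2
  set R : ℕ → ℝ := (S.rest (E p)).rt (fun k => Setoid.ker (zb k)) (fun k => Setoid.ker (fun ω => (za k ω, Bc k ω))) with hR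
  have hUR : UB R := UB_rt (b1.toInf) _
  have h3 : ∀ k, ((1 - c) * (ρ p.2 - ρ p.1) + η / 4) * S.pr (E p) k - 1 / (S.F k).n ≤ S.pr (E p) k * R k := by
    intro k
    have hn := (S.F k).pos
    have c1 := srp_event (S.F k).μ (S.F k).nn (zb k) (fun ω' => (za k ω', (Quotient.mk (S.F k).Z ω', Bc k ω')))
      (E p k) (((1 - c) * (ρ p.2 - ρ p.1) + η / 4) * (S.F k).n) (fun ω _ hω => hω.2)
    rw [(S.F k).ms, (S.F k).CH_res] at c1
    have c2 : CH ((S.F k).rest (E p k)).μ (zb k) (fun ω' => (za k ω', (Quotient.mk (S.F k).Z ω', Bc k ω'))) =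
        R k * (S.F k).n := by
      have c3 : R k = ((S.F k).rest (E p k)).e (Setoid.ker (zb k))
          (Setoid.ker (fun ω => (za k ω, Bc k ω)) ⊓ (S.F k).Z) / (S.F k).n := rfl
      rw [c3, div_mul_cancel₀ _ hn.ne']
      symm
      apply ((S.F k).rest (E p k)).e_congr
      · intro ω ω' _ _
        exact Iff.rfl
      · intro ω ω' _ _
        rw [Prod.mk.injEq, Prod.mk.injEq]
        constructor
        · rintro ⟨u1, u2⟩
          have u3 : (za k ω', Bc k ω') = (za k ω, Bc k ω) := u1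
          rw [Prod.mk.injEq] at u3
          exact ⟨u3.1, Quotient.sound u2, u3.2⟩
        · rintro ⟨u1, u2, u3⟩
          refine ⟨?_, Quotient.exact u2⟩
          show (za k ω', Bc k ω') = (za k ω, Bc k ω)
          rw [u1, u3]
    replace c1 := c1.trans (le_of_eq (congrArg (fun t => (S.F k).pb (E p k) * t) c2))
    beta_reduce at c1
    have c4 : (S.F k).pb (E p k) = S.pr (E p) k := rfl
    have c5 : mass (res (S.F k).μ (E p k)) = S.pr (E p) k := rfl
    rw [c4, c5] at c1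
    have c6 := div_le_div_of_nonneg_right c1 hn.le
    have c7 : (((1 - c) * (ρ p.2 - ρ p.1) + η / 4) * (S.F k).n * S.pr (E p) k - 1) / (S.F k).n =
        ((1 - c) * (ρ p.2 - ρ p.1) + η / 4) * S.pr (E p) k - 1 / (S.F k).n := by
      field_simp
    have c8 : S.pr (E p) k * (R k * (S.F k).n) / (S.F k).n = S.pr (E p) k * R k := by
      field_simp
    rw [c7, c8] at c6
    exact c6
  have t1 : Tendsto (fun k => ((1 - c) * (ρ p.2 - ρ p.1) + η / 4) * S.pr (E p) k - 1 / (S.F k).n) UF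
      (𝓝 (((1 - c) * (ρ p.2 - ρ p.1) + η / 4) * ul (S.pr (E p)) - 0)) :=
    ((ul_tendsto (UB_pr (E p))).const_mul _).sub (S.div_n_tendsto 1)
  have t2 : Tendsto (fun k => S.pr (E p) k * R k) UF (𝓝 (ul (S.pr (E p)) * ul R)) :=
    (ul_tendsto (UB_pr (E p))).mul (ul_tendsto hUR)
  have h4 := le_of_tendsto_of_tendsto t1 t2 (Eventually.of_forall h3)
  have h5 : ul (S.pr (E p)) * ul R ≤ ul (S.pr (E p)) * ((1 - c) * (ρ p.2 - ρ p.1)) :=
    mul_le_mul_of_nonneg_left h2 hp.le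
  have h6 : 0 < η / 4 * ul (S.pr (E p)) := by positivity
  nlinarith

end

end Pool.Agent.Helper61.EC
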